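import Pool.Agent.Lib.MP_ae5b4e_an_FVH.Bas

/-!
# MP_ae5b4e_an, project FV, function theory, part 2: the pre-Schwarzian derivative of a finitely valent
locally injective function
-/

noncomputable section

namespace Pool.Agent.MP_ae5b4e_an_FVH

open Complex Set Metric Filter Topology

/-- the pre-Schwarzian derivative -/
def pre (f : ℂ → ℂ) (z : ℂ) : ℂ := deriv (deriv f) z / deriv f z

theorem growth {f : ℂ → ℂ} {c : ℂ} {r M : ℝ} (hr : 0 < r) (hf : DifferentiableOn ℂ f (ball c r))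
    (h0 : ∀ z ∈ ball c r, deriv f z ≠ 0) (hM : ∀ z ∈ ball c r, ‖pre f z‖ ≤ M) :
    (∀ z ∈ ball c r, ‖deriv f z‖ ≤ ‖deriv f c‖ * Real.exp (M * r)) ∧
    ∀ z ∈ ball c r, ‖f z - f c‖ ≤ ‖deriv f c‖ * Real.exp (M * r) * r := by
  have hM0 : 0 ≤ M := (norm_nonneg _).trans (hM c (mem_ball_self hr))
  obtain ⟨g, hg, hge, hgd, -⟩ :=
    Pool.Agent.Lib.MP_ae5b4e_an_UT.exists_log_ball hr (hf.deriv isOpen_ball) h0
  have hc : c ∈ ball c r := mem_ball_self hr
  have h1 : ∀ z ∈ ball c r, ‖deriv f z‖ ≤ ‖deriv f c‖ * Real.exp (M * r) := by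
    intro z hz
    have h2 : ‖g z - g c‖ ≤ M * ‖z - c‖ :=
      (convex_ball c r).norm_image_sub_le_of_norm_hasDerivWithin_le
        (fun w hw => (hgd w hw).hasDerivWithinAt) (fun w hw => hM w hw) hc hz
    have h3 : ‖z - c‖ ≤ r := by
      rw [← dist_eq_norm]; exact (mem_ball.mp hz).le
    rw [← hge z hz, ← hge c hc, show g z = g c + (g z - g c) by ring, Complex.exp_add, norm_mul]
    refine mul_le_mul_of_nonneg_left ?_ (norm_nonneg _)
    rw [Complex.norm_exp]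
    refine Real.exp_le_exp.mpr ((Complex.re_le_norm _).trans (h2.trans ?_))
    exact mul_le_mul_of_nonneg_left h3 hM0
  refine ⟨h1, fun z hz => ?_⟩
  have h2 : ‖f z - f c‖ ≤ ‖deriv f c‖ * Real.exp (M * r) * ‖z - c‖ :=
    (convex_ball c r).norm_image_sub_le_of_norm_hasDerivWithin_le
      (fun w hw => ((hf w hw).differentiableAt (isOpen_ball.mem_nhds hw)).hasDerivAt.hasDerivWithinAt)
      (fun w hw => h1 w hw) hc hz
  have h3 : ‖z - c‖ ≤ r := by
    rw [← dist_eq_norm]; exact (mem_ball.mp hz).le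
  exact h2.trans (mul_le_mul_of_nonneg_left h3 (by positivity))

theorem pre_cont {f : ℂ → ℂ} {U : Set ℂ} (hU : IsOpen U) (hf : DifferentiableOn ℂ f U)
    (h0 : ∀ z ∈ U, deriv f z ≠ 0) : DifferentiableOn ℂ (pre f) U :=
  ((hf.deriv hU).deriv hU).div (hf.deriv hU) h0

theorem exists_max {f : ℂ → ℂ} {c : ℂ} {r C : ℝ} (hf : DifferentiableOn ℂ f (ball c r))
    (h0 : ∀ z ∈ ball c r, deriv f z ≠ 0) (hC : 0 < C) {z : ℂ} (hz : z ∈ ball c r)
    (hzC : 2 * C < ‖pre f z‖ * (r - dist z c)) :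
    ∃ (w₀ : ℂ) (δ : ℝ), 0 < δ ∧ ball w₀ δ ⊆ ball c r ∧ C < ‖pre f w₀‖ * δ ∧
      ∀ w ∈ ball w₀ δ, ‖pre f w‖ * (δ - dist w w₀) ≤ ‖pre f w₀‖ * δ := by
  set s : ℝ := r - dist z c with hs
  have hs0 : 0 < s := sub_pos.mpr (mem_ball.mp hz)
  have hsub : closedBall z (s / 2) ⊆ ball c r := by
    intro w hw
    rw [mem_closedBall] at hw
    rw [mem_ball]
    have := dist_triangle w z c
    linarith
  have hcont : ContinuousOn (fun w => ‖pre f w‖ * (s / 2 - dist w z)) (closedBall z (s / 2)) :=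
    (((pre_cont isOpen_ball hf h0).continuousOn.mono hsub).norm).mul (by fun_prop)
  obtain ⟨w₀, hw₀, hmax⟩ := (isCompact_closedBall z (s / 2)).exists_isMaxOn
    ⟨z, mem_closedBall_self (by linarith)⟩ hcont
  have h1 : ‖pre f z‖ * (s / 2 - dist z z) ≤ ‖pre f w₀‖ * (s / 2 - dist w₀ z) :=
    hmax (mem_closedBall_self (by linarith))
  rw [dist_self, sub_zero] at h1
  have h2 : C < ‖pre f w₀‖ * (s / 2 - dist w₀ z) := by
    have : ‖pre f z‖ * s = 2 * (‖pre f z‖ * (s / 2)) := by ring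
    linarith
  have h3 : 0 < s / 2 - dist w₀ z := by
    by_contra hcon
    push Not at hcon
    have := mul_nonpos_of_nonneg_of_nonpos (norm_nonneg (pre f w₀)) hcon
    linarith
  refine ⟨w₀, s / 2 - dist w₀ z, h3, ?_, h2, ?_⟩
  · intro w hw
    apply hsub
    rw [mem_ball] at hw
    rw [mem_closedBall]
    have := dist_triangle w w₀ z
    linarith
  · intro w hw
    rw [mem_ball] at hw
    have h4 := dist_triangle w w₀ z
    have h5 : ‖pre f w‖ * (s / 2 - dist w z) ≤ ‖pre f w₀‖ * (s / 2 - dist w₀ z) :=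
      hmax (by rw [mem_closedBall]; linarith)
    refine le_trans (mul_le_mul_of_nonneg_left ?_ (norm_nonneg _)) h5
    linarith

theorem rescale {f : ℂ → ℂ} {w₀ : ℂ} {δ : ℝ} {N : ℕ} (hδ : 0 < δ)
    (hf : DifferentiableOn ℂ f (ball w₀ δ)) (h0 : ∀ z ∈ ball w₀ δ, deriv f z ≠ 0)
    (hNV : NV f (ball w₀ δ) N) {C : ℝ} (hC : 0 < C) (hC1 : C < ‖pre f w₀‖ * δ)
    (hm : ∀ w ∈ ball w₀ δ, ‖pre f w‖ * (δ - dist w w₀) ≤ ‖pre f w₀‖ * δ) :
    ∃ G : ℂ → ℂ, DifferentiableOn ℂ G (ball 0 C) ∧ G 0 = 0 ∧ deriv G 0 = 1 ∧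
      (∀ z ∈ ball (0:ℂ) C, deriv G z ≠ 0) ∧ deriv (deriv G) 0 = 1 ∧
      (∀ z ∈ ball (0:ℂ) C, ‖pre G z‖ * (C - ‖z‖) ≤ C) ∧ NV G (ball 0 C) N := by
  have hA : pre f w₀ ≠ 0 := by
    intro h
    rw [h, norm_zero, zero_mul] at hC1
    linarith
  set lam : ℂ := (pre f w₀)⁻¹ with hlam
  have hl0 : lam ≠ 0 := inv_ne_zero hA
  have hln : ‖lam‖ = ‖pre f w₀‖⁻¹ := norm_inv _
  have hAp : 0 < ‖pre f w₀‖ := norm_pos_iff.mpr hA
  have hw₀ : w₀ ∈ ball w₀ δ := mem_ball_self hδ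
  have hfw : deriv f w₀ ≠ 0 := h0 _ hw₀
  have hCl : C * ‖lam‖ < δ := by
    rw [hln, ← div_eq_mul_inv, div_lt_iff₀ hAp]; linarith [mul_comm δ ‖pre f w₀‖]
  have hmap : ∀ z ∈ ball (0:ℂ) C, w₀ + lam * z ∈ ball w₀ δ := by
    intro z hz
    rw [mem_ball_zero_iff] at hz
    rw [mem_ball_iff_norm, add_sub_cancel_left, norm_mul]
    have : ‖lam‖ * ‖z‖ ≤ ‖lam‖ * C := mul_le_mul_of_nonneg_left hz.le (norm_nonneg _)
    linarith [mul_comm C ‖lam‖]
  set G : ℂ → ℂ := fun z => (f (w₀ + lam * z) - f w₀) / (lam * deriv f w₀) with hG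
  have hc0 : lam * deriv f w₀ ≠ 0 := mul_ne_zero hl0 hfw
  have haff : ∀ z, HasDerivAt (fun z : ℂ => w₀ + lam * z) lam z := fun z => by
    simpa using ((hasDerivAt_id z).const_mul lam).const_add w₀
  have hGd : ∀ z ∈ ball (0:ℂ) C, HasDerivAt G (deriv f (w₀ + lam * z) / deriv f w₀) z := by
    intro z hz
    have h1 : HasDerivAt f (deriv f (w₀ + lam * z)) (w₀ + lam * z) :=
      ((hf _ (hmap z hz)).differentiableAt (isOpen_ball.mem_nhds (hmap z hz))).hasDerivAt
    have h2 := ((h1.comp z (haff z)).sub_const (f w₀)).div_const (lam * deriv f w₀)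
    have h3 : deriv f (w₀ + lam * z) * lam / (lam * deriv f w₀) =
        deriv f (w₀ + lam * z) / deriv f w₀ := by
      field_simp
    rw [h3] at h2
    exact h2
  have hG1 : ∀ z ∈ ball (0:ℂ) C, deriv G z = deriv f (w₀ + lam * z) / deriv f w₀ :=
    fun z hz => (hGd z hz).deriv
  have hG2 : ∀ z ∈ ball (0:ℂ) C,
      deriv (deriv G) z = lam * deriv (deriv f) (w₀ + lam * z) / deriv f w₀ := by
    intro z hz
    have h1 : deriv G =ᶠ[𝓝 z] fun z => deriv f (w₀ + lam * z) / deriv f w₀ := by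
      filter_upwards [isOpen_ball.mem_nhds hz] with w hw using hG1 w hw
    rw [h1.deriv_eq]
    have h2 : HasDerivAt (deriv f) (deriv (deriv f) (w₀ + lam * z)) (w₀ + lam * z) :=
      (((hf.deriv isOpen_ball) _ (hmap z hz)).differentiableAt
        (isOpen_ball.mem_nhds (hmap z hz))).hasDerivAt
    have h3 := ((h2.comp z (haff z)).div_const (deriv f w₀)).deriv
    have h4 : (deriv f ∘ fun z : ℂ => w₀ + lam * z) = fun z => deriv f (w₀ + lam * z) := rfl
    rw [h4] at h3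
    rw [h3]; ring
  have h00 : (0:ℂ) ∈ ball (0:ℂ) C := mem_ball_self hC
  refine ⟨G, fun z hz => (hGd z hz).differentiableAt.differentiableWithinAt, ?_, ?_, ?_, ?_, ?_, ?_⟩
  · simp [hG]
  · rw [hG1 0 h00, mul_zero, add_zero, div_self hfw]
  · intro z hz
    rw [hG1 z hz]
    exact div_ne_zero (h0 _ (hmap z hz)) hfw
  · rw [hG2 0 h00, mul_zero, add_zero, mul_div_assoc]
    exact inv_mul_cancel₀ hA
  · intro z hz
    have h1 : pre G z = lam * pre f (w₀ + lam * z) := by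
      unfold pre
      rw [hG2 z hz, hG1 z hz]
      have := h0 _ (hmap z hz)
      field_simp
    have h2 := hm _ (hmap z hz)
    rw [dist_eq_norm, add_sub_cancel_left, norm_mul] at h2
    rw [h1, norm_mul]
    rw [mem_ball_zero_iff] at hz
    set a := ‖pre f w₀‖ with ha
    set b := ‖pre f (w₀ + lam * z)‖ with hb
    rw [hln] at h2 ⊢
    have hb0 : 0 ≤ b := norm_nonneg _
    -- h2 : b * (δ - a⁻¹ * ‖z‖) ≤ a * δ
    have h3 : a * a⁻¹ = 1 := mul_inv_cancel₀ hAp.ne'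
    have hRC : C < a * δ := hC1
    -- b/a ≤ aδ/(aδ - ‖z‖) ≤ C/(C-‖z‖)
    have h4 : (a⁻¹ * b) * (a * δ - ‖z‖) ≤ a * δ := by
      calc (a⁻¹ * b) * (a * δ - ‖z‖) = b * (a * a⁻¹ * δ - a⁻¹ * ‖z‖) := by ring
        _ = b * (δ - a⁻¹ * ‖z‖) := by rw [h3, one_mul]
        _ ≤ a * δ := h2
    set t := a⁻¹ * b with ht
    have ht0 : 0 ≤ t := by positivity
    -- (t - 1) * aδ ≤ t * ‖z‖
    by_cases ht1 : t ≤ 1
    · nlinarith [norm_nonneg z]
    · push Not at ht1
      nlinarith [norm_nonneg z]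
  · intro x s hs
    have hinj : Function.Injective fun z : ℂ => w₀ + lam * z := by
      intro z w h
      exact mul_left_cancel₀ hl0 (add_left_cancel h)
    have h1 : (s.image fun z : ℂ => w₀ + lam * z).card = s.card :=
      Finset.card_image_of_injective _ hinj
    rw [← h1]
    refine hNV (f w₀ + x * (lam * deriv f w₀)) _ ?_
    intro z hz
    obtain ⟨w, hw, rfl⟩ := Finset.mem_image.mp hz
    refine ⟨hmap w (hs w hw).1, ?_⟩
    have h2 := (hs w hw).2
    rw [hG] at h2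
    rw [div_eq_iff hc0] at h2
    linear_combination h2

theorem no_seq (N : ℕ) {G : ℕ → ℂ → ℂ}
    (hd : ∀ n : ℕ, DifferentiableOn ℂ (G n) (ball 0 (n + 1))) (h0 : ∀ n, G n 0 = 0)
    (h1 : ∀ n, deriv (G n) 0 = 1) (hne : ∀ n : ℕ, ∀ z ∈ ball (0:ℂ) (n + 1), deriv (G n) z ≠ 0)
    (h2 : ∀ n, deriv (deriv (G n)) 0 = 1)
    (hb : ∀ n : ℕ, ∀ z ∈ ball (0:ℂ) (n + 1), ‖pre (G n) z‖ * ((n + 1) - ‖z‖) ≤ n + 1)
    (hN : ∀ n : ℕ, NV (G n) (ball 0 (n + 1)) N) : False := by
  -- eventually, large discs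
  have hev : ∀ R : ℝ, ∀ᶠ n : ℕ in atTop, R ≤ (n : ℝ) + 1 := by
    intro R
    filter_upwards [Filter.eventually_ge_atTop ⌈R⌉₊] with n hn
    have := Nat.le_ceil R
    have h3 : ((⌈R⌉₊ : ℕ) : ℝ) ≤ n := by exact_mod_cast hn
    linarith
  have hpre : ∀ R : ℝ, 0 < R → ∀ᶠ n : ℕ in atTop, ∀ z ∈ ball (0:ℂ) R, ‖pre (G n) z‖ ≤ 2 := by
    intro R hR
    filter_upwards [hev (2 * R)] with n hn z hz
    have hz' := mem_ball_zero_iff.mp hz
    have h3 := hb n z (by rw [mem_ball_zero_iff]; linarith)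
    have h4 : ((n:ℝ) + 1) / 2 ≤ (n + 1) - ‖z‖ := by linarith
    have h5 := (mul_le_mul_of_nonneg_left h4 (norm_nonneg (pre (G n) z))).trans h3
    have h6 : (0:ℝ) < (n:ℝ) + 1 := by positivity
    by_contra hcon
    push Not at hcon
    nlinarith
  obtain ⟨φ, H, hφ, hH, hlim⟩ := Pool.Agent.Lib.MP_ae5b4e_an_UT.montel (f := G) (U := univ)
    isOpen_univ (by
      intro x _
      refine ⟨1, one_pos, Real.exp (2 * (‖x‖ + 1)) * (‖x‖ + 1), ?_⟩
      have hR : 0 < ‖x‖ + 1 := by positivity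
      filter_upwards [hev (‖x‖ + 1), hpre _ hR] with n hn hn2
      have hsub : ball (0:ℂ) (‖x‖ + 1) ⊆ ball 0 (n + 1) := ball_subset_ball hn
      have hsub2 : ball x 1 ⊆ ball (0:ℂ) (‖x‖ + 1) := by
        intro y hy
        rw [mem_ball_iff_norm] at hy
        rw [mem_ball_zero_iff]
        calc ‖y‖ = ‖x + (y - x)‖ := by rw [add_sub_cancel]
          _ ≤ ‖x‖ + ‖y - x‖ := norm_add_le _ _
          _ < ‖x‖ + 1 := by linarith
      refine ⟨(hd n).mono (hsub2.trans hsub), fun y hy => ?_⟩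
      have h3 := (growth hR ((hd n).mono hsub) (fun z hz => hne n z (hsub hz)) hn2).2 y (hsub2 hy)
      rwa [h0, h1, sub_zero, norm_one, one_mul] at h3)
  have hHd : Differentiable ℂ H := differentiableOn_univ.mp hH
  have hdR : ∀ R : ℝ, ∀ᶠ n in atTop, DifferentiableOn ℂ (G (φ n)) (ball 0 R) := by
    intro R
    filter_upwards [hφ.tendsto_atTop.eventually (hev R)] with n hn
    exact (hd _).mono (ball_subset_ball hn)
  have hl0 : ∀ R : ℝ, TendstoLocallyUniformlyOn (fun n => G (φ n)) H atTop (ball 0 R) :=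
    fun R => hlim.mono (subset_univ _)
  have hl1 : ∀ R : ℝ, TendstoLocallyUniformlyOn (fun n => deriv (G (φ n))) (deriv H) atTop
      (ball 0 R) := fun R => (hl0 R).deriv (hdR R) isOpen_ball
  have hdR1 : ∀ R : ℝ, ∀ᶠ n in atTop, DifferentiableOn ℂ (deriv (G (φ n))) (ball 0 R) := by
    intro R
    filter_upwards [hdR R] with n hn using hn.deriv isOpen_ball
  have hl2 : ∀ R : ℝ, TendstoLocallyUniformlyOn (fun n => deriv (deriv (G (φ n))))
      (deriv (deriv H)) atTop (ball 0 R) := fun R => (hl1 R).deriv (hdR1 R) isOpen_ball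
  have hmem : ∀ z : ℂ, z ∈ ball (0:ℂ) (‖z‖ + 1) := fun z => by
    rw [mem_ball_zero_iff]; linarith
  have e0 : H 0 = 0 := by
    have := (hl0 _).tendsto_at (hmem 0)
    simp only [h0] at this
    exact (tendsto_nhds_unique this tendsto_const_nhds)
  have e1 : deriv H 0 = 1 := by
    have := (hl1 _).tendsto_at (hmem 0)
    simp only [h1] at this
    exact (tendsto_nhds_unique this tendsto_const_nhds)
  have e2 : deriv (deriv H) 0 = 1 := by
    have := (hl2 _).tendsto_at (hmem 0)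
    simp only [h2] at this
    exact (tendsto_nhds_unique this tendsto_const_nhds)
  have hHne : ∀ z, deriv H z ≠ 0 := by
    intro z
    have hz0 : (0:ℂ) ∈ ball (0:ℂ) (‖z‖ + 1) := mem_ball_self (by positivity)
    rcases Pool.Agent.Lib.MP_ae5b4e_an_UT.hurwitz_ne (l := atTop) (F := fun n => deriv (G (φ n)))
      (g := deriv H) (U := ball (0:ℂ) (‖z‖ + 1)) isOpen_ball (convex_ball _ _).isPreconnected
      (hdR1 _) (hl1 _) (by
        filter_upwards [hφ.tendsto_atTop.eventually (hev (‖z‖ + 1))] with n hn w hw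
        exact hne _ w (ball_subset_ball hn hw)) with h | h
    · exact h z (hmem z)
    · rw [h 0 hz0] at e1
      exact absurd e1 zero_ne_one
  have hHd1 : Differentiable ℂ (deriv H) := fun z =>
    (hHd.contDiff.differentiable_deriv_two z)
  have hHd2 : Differentiable ℂ (deriv (deriv H)) := fun z =>
    (hHd1.contDiff.differentiable_deriv_two z)
  have hpd : Differentiable ℂ (pre H) := hHd2.div hHd1 hHne
  have hpb : ∀ z, ‖pre H z‖ ≤ 2 := by
    intro z
    have h3 : Tendsto (fun n => pre (G (φ n)) z) atTop (𝓝 (pre H z)) :=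
      ((hl2 _).tendsto_at (hmem z)).div ((hl1 _).tendsto_at (hmem z)) (hHne z)
    refine le_of_tendsto h3.norm ?_
    filter_upwards [hφ.tendsto_atTop.eventually (hpre (‖z‖ + 1) (by positivity))] with n hn
    exact hn z (hmem z)
  have hp1 : ∀ z, pre H z = 1 := by
    intro z
    have hbd : Bornology.IsBounded (range (pre H)) := by
      rw [isBounded_iff_forall_norm_le]
      exact ⟨2, by rintro _ ⟨w, rfl⟩; exact hpb w⟩
    rw [hpd.apply_eq_apply_of_bounded hbd z 0]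
    unfold pre
    rw [e1, e2, div_one]
  have hH2 : ∀ z, deriv (deriv H) z = deriv H z := by
    intro z
    have := hp1 z
    unfold pre at this
    rwa [div_eq_one_iff_eq (hHne z)] at this
  -- H' = exp
  have hexp : ∀ z, deriv H z = Complex.exp z := by
    have h3 : ∀ z, HasDerivAt (fun z => deriv H z * Complex.exp (-z)) 0 z := by
      intro z
      have h4 : HasDerivAt (deriv H) (deriv H z) z := by
        have := (hHd1 z).hasDerivAt
        rwa [hH2 z] at this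
      have h5 : HasDerivAt (fun z : ℂ => Complex.exp (-z)) (Complex.exp (-z) * (-1)) z :=
        ((hasDerivAt_id z).neg).cexp
      have h6 := h4.mul h5
      have h7 : deriv H z * Complex.exp (-z) + deriv H z * (Complex.exp (-z) * (-1)) = 0 := by ring
      rw [h7] at h6
      exact h6
    intro z
    have h4 : deriv H z * Complex.exp (-z) = deriv H 0 * Complex.exp (-0) :=
      is_const_of_deriv_eq_zero (fun z => (h3 z).differentiableAt) (fun z => (h3 z).deriv) z 0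
    rw [neg_zero, Complex.exp_zero, e1, mul_one, Complex.exp_neg] at h4
    field_simp at h4
    exact h4
  have hHe : ∀ z, H z = Complex.exp z - 1 := by
    have h3 : ∀ z, HasDerivAt (fun z => H z - Complex.exp z) 0 z := by
      intro z
      have := ((hHd z).hasDerivAt).sub (Complex.hasDerivAt_exp z)
      rwa [hexp z, sub_self] at this
    intro z
    have h4 : H z - Complex.exp z = H 0 - Complex.exp 0 :=
      is_const_of_deriv_eq_zero (fun z => (h3 z).differentiableAt) (fun z => (h3 z).deriv) z 0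
    rw [e0, Complex.exp_zero] at h4
    linear_combination h4
  -- the zeros of the limit
  set s : Finset ℂ := (Finset.range (N + 1)).image fun k : ℕ => (k : ℂ) * (2 * Real.pi * I) with hs
  have hpi : (2 * (Real.pi : ℂ) * I) ≠ 0 := by
    simp [Real.pi_ne_zero]
  have hsc : s.card = N + 1 := by
    rw [hs, Finset.card_image_of_injective, Finset.card_range]
    intro a b hab
    exact_mod_cast mul_right_cancel₀ hpi hab
  have hsz : ∀ z ∈ s, z ∈ ball (0:ℂ) ((N + 1) * 7) ∧ H z = 0 ∧ ¬ ∀ᶠ w in 𝓝 z, H w = 0 := by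
    intro z hz
    obtain ⟨k, hk, rfl⟩ := Finset.mem_image.mp hz
    rw [Finset.mem_range] at hk
    refine ⟨?_, ?_, not_const (hHne _)⟩
    · rw [mem_ball_zero_iff, norm_mul, norm_mul, norm_mul, Complex.norm_I, Complex.norm_natCast,
        Complex.norm_real, Real.norm_of_nonneg Real.pi_pos.le]
      have h3 : (k : ℝ) + 1 ≤ N + 1 := by exact_mod_cast hk
      have h4 := Real.pi_lt_d2
      have h5 : (0:ℝ) ≤ k := Nat.cast_nonneg k
      have h6 := Real.pi_pos
      have h7 : ‖(2:ℂ)‖ = 2 := by simp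
      rw [h7]
      nlinarith
    · rw [hHe, Complex.exp_nat_mul, Complex.exp_two_pi_mul_I, one_pow, sub_self]
  have hfin := persist (l := atTop) (F := fun n => G (φ n)) (h := H) (U := ball (0:ℂ) ((N + 1) * 7))
    isOpen_ball (hdR _) (hl0 _) (y := 0) (Y := fun _ => 0) tendsto_const_nhds s hsz one_pos
  obtain ⟨n, hn, t, htc, ht⟩ :=
    ((hφ.tendsto_atTop.eventually (hev ((N + 1) * 7))).and hfin).exists
  have h3 := hN (φ n) 0 t fun z hz => ⟨ball_subset_ball hn (ht z hz).1, (ht z hz).2.1⟩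
  rw [htc, hsc] at h3
  omega

/-- **The pre-Schwarzian derivative of an `N`-valent locally injective function.** -/
theorem presch_bound (N : ℕ) : ∃ C > 0, ∀ (f : ℂ → ℂ) (c : ℂ) (r : ℝ),
    DifferentiableOn ℂ f (ball c r) → (∀ z ∈ ball c r, deriv f z ≠ 0) → NV f (ball c r) N →
    ∀ z ∈ ball c r, ‖pre f z‖ * (r - dist z c) ≤ C := by
  by_contra hcon
  push Not at hcon
  have h1 : ∀ n : ℕ, ∃ G : ℂ → ℂ, DifferentiableOn ℂ G (ball 0 ((n:ℝ) + 1)) ∧ G 0 = 0 ∧
      deriv G 0 = 1 ∧ (∀ z ∈ ball (0:ℂ) ((n:ℝ) + 1), deriv G z ≠ 0) ∧ deriv (deriv G) 0 = 1 ∧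
      (∀ z ∈ ball (0:ℂ) ((n:ℝ) + 1), ‖pre G z‖ * (((n:ℝ) + 1) - ‖z‖) ≤ (n:ℝ) + 1) ∧
      NV G (ball 0 ((n:ℝ) + 1)) N := by
    intro n
    have hn : (0:ℝ) < (n:ℝ) + 1 := by positivity
    obtain ⟨f, c, r, hf, h0, hNV, z, hz, hzC⟩ := hcon (2 * ((n:ℝ) + 1)) (by positivity)
    obtain ⟨w₀, δ, hδ, hsub, hC, hm⟩ := exists_max hf h0 hn hz hzC
    exact rescale hδ (hf.mono hsub) (fun z hz => h0 z (hsub hz)) (hNV.mono hsub) hn hC hm
  choose G hG using h1
  exact no_seq N (fun n => (hG n).1) (fun n => (hG n).2.1) (fun n => (hG n).2.2.1)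
    (fun n => (hG n).2.2.2.1) (fun n => (hG n).2.2.2.2.1) (fun n => (hG n).2.2.2.2.2.1)
    (fun n => (hG n).2.2.2.2.2.2)

end Pool.Agent.MP_ae5b4e_an_FVH
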