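import Pool.Agent.Lib.MP_ae5b4e_an_FVH.Good

/-!
# MP_ae5b4e_an, project FV, function theory, part 7: a finitely valent function is univalent on windows
which tend to a boundary point
-/

noncomputable section

namespace Pool.Agent.MP_ae5b4e_an_FVH

open Complex Set Metric Filter Topology

/-- the limits of the windows of `f` at points which tend to `0` -/
def LW (f : ℂ → ℂ) : Set (ℂ → ℂ) :=
  {h | ∃ a : ℕ → ℂ, (∀ n, a n ∈ HL) ∧ Tendsto a atTop (𝓝 0) ∧
    TendstoLocallyUniformlyOn (fun n => win f (a n)) h atTop HL}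

/-- a compact exhaustion of the half plane -/
def KR (R : ℝ) : Set ℂ := {z | ‖z‖ ≤ R ∧ 1 ≤ R * (-z.im)}

theorem KR_compact (R : ℝ) : IsCompact (KR R) := by
  apply IsCompact.of_isClosed_subset (isCompact_closedBall (0:ℂ) R)
  · exact (isClosed_le continuous_norm continuous_const).inter
      (isClosed_le continuous_const (continuous_const.mul Complex.continuous_im.neg))
  · intro z hz
    rw [mem_closedBall_zero_iff]
    exact hz.1

theorem KR_sub (R : ℝ) : KR R ⊆ HL := by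
  rintro z ⟨h1, h2⟩
  show z.im < 0
  by_contra hcon
  push Not at hcon
  have h3 : 0 ≤ R := (norm_nonneg z).trans h1
  nlinarith

theorem KR_mono {R R' : ℝ} (h : R ≤ R') : KR R ⊆ KR R' := by
  rintro z ⟨h1, h2⟩
  have h3 : z.im < 0 := KR_sub R ⟨h1, h2⟩
  exact ⟨h1.trans h, h2.trans (mul_le_mul_of_nonneg_right h (by linarith))⟩

theorem KR_nhds {z : ℂ} (hz : z ∈ HL) : ∃ R : ℝ, KR R ∈ 𝓝 z := by
  have hz' : z.im < 0 := hz
  refine ⟨max (‖z‖ + 1) (2 / (-z.im)), ?_⟩
  have h1 : ∀ᶠ w in 𝓝 z, ‖w‖ < ‖z‖ + 1 :=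
    continuous_norm.continuousAt.eventually_lt continuousAt_const (by simp)
  have h2 : ∀ᶠ w : ℂ in 𝓝 z, w.im < z.im / 2 :=
    Complex.continuous_im.continuousAt.eventually_lt continuousAt_const (by linarith)
  filter_upwards [h1, h2] with w hw1 hw2
  refine ⟨hw1.le.trans (le_max_left _ _), ?_⟩
  calc (1:ℝ) = 2 / (-z.im) * (-z.im / 2) := by
        have : -z.im ≠ 0 := by linarith
        rw [div_mul_div_comm, mul_comm (2:ℝ), div_self (mul_ne_zero this two_ne_zero)]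
    _ ≤ max (‖z‖ + 1) (2 / (-z.im)) * (-w.im) := by
        refine mul_le_mul (le_max_right _ _) (by linarith) (by linarith) ?_
        exact le_max_of_le_left (by positivity)

/-- diagonal sequences -/
theorem LW_closed {f : ℂ → ℂ} {h : ℕ → ℂ → ℂ} {g : ℂ → ℂ} (hh : ∀ n, h n ∈ LW f)
    (hlim : TendstoLocallyUniformlyOn h g atTop HL) : g ∈ LW f := by
  choose a ha ha0 hal using hh
  have hch : ∀ n : ℕ, ∃ k : ℕ, ‖a n k‖ < 1 / ((n:ℝ) + 1) ∧
      ∀ z ∈ KR n, dist (h n z) (win f (a n k) z) < 1 / ((n:ℝ) + 1) := by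
    intro n
    have hpos : (0:ℝ) < 1 / ((n:ℝ) + 1) := by positivity
    have h1 : ∀ᶠ k in atTop, ‖a n k‖ < 1 / ((n:ℝ) + 1) := by
      have := (Metric.tendsto_nhds.mp (ha0 n)) _ hpos
      simpa [dist_zero_right] using this
    have h2 := (tendstoLocallyUniformlyOn_iff_forall_isCompact isOpen_HL).mp (hal n) (KR n)
      (KR_sub _) (KR_compact _)
    rw [Metric.tendstoUniformlyOn_iff] at h2
    obtain ⟨k, hk1, hk2⟩ := (h1.and (h2 _ hpos)).exists
    exact ⟨k, hk1, hk2⟩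
  choose k hk1 hk2 using hch
  have hlim0 : Tendsto (fun n : ℕ => 1 / ((n:ℝ) + 1)) atTop (𝓝 0) :=
    tendsto_one_div_add_atTop_nhds_zero_nat
  refine ⟨fun n => a n (k n), fun n => ha n _, squeeze_zero_norm (fun n => (hk1 n).le) hlim0, ?_⟩
  rw [Metric.tendstoLocallyUniformlyOn_iff]
  intro ε hε z hz
  obtain ⟨R, hR⟩ := KR_nhds hz
  refine ⟨KR R, mem_nhdsWithin_of_mem_nhds hR, ?_⟩
  have h2 := (tendstoLocallyUniformlyOn_iff_forall_isCompact isOpen_HL).mp hlim (KR R)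
      (KR_sub _) (KR_compact _)
  rw [Metric.tendstoUniformlyOn_iff] at h2
  filter_upwards [h2 (ε / 2) (by positivity), hlim0.eventually (gt_mem_nhds (half_pos hε)),
    eventually_ge_atTop ⌈R⌉₊] with n hn1 hn2 hn3 w hw
  have h3 : R ≤ n := (Nat.le_ceil R).trans (by exact_mod_cast hn3)
  calc dist (g w) (win f (a n (k n)) w) ≤ dist (g w) (h n w) + dist (h n w) (win f (a n (k n)) w) :=
        dist_triangle _ _ _
    _ < ε / 2 + ε / 2 := add_lt_add (hn1 w hw) ((hk2 n w (KR_mono h3 hw)).trans hn2)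
    _ = ε := by ring

section

variable {f : ℂ → ℂ} {δ C : ℝ} {N : ℕ}

theorem good_seq (hδ : 0 < δ) (hf : DifferentiableOn ℂ f (UR δ)) (hne : ∀ z ∈ UR δ, deriv f z ≠ 0)
    (hN : NV f (UR δ) N) (hC : ∀ (f : ℂ → ℂ) (c : ℂ) (r : ℝ),
      DifferentiableOn ℂ f (ball c r) → (∀ z ∈ ball c r, deriv f z ≠ 0) → NV f (ball c r) N →
      ∀ z ∈ ball c r, ‖pre f z‖ * (r - dist z c) ≤ C) {a : ℕ → ℂ} (ha : ∀ n, a n ∈ HL)
    (ha0 : Tendsto a atTop (𝓝 0)) : ∀ R > 1, ∀ᶠ n in atTop, Good (win f (a n)) C N R := by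
  intro R hR
  have h1 : Tendsto (fun n => ‖a n‖ * (1 + R) * 2) atTop (𝓝 (‖(0:ℂ)‖ * (1 + R) * 2)) :=
    (ha0.norm.mul_const _).mul_const _
  rw [norm_zero, zero_mul, zero_mul] at h1
  filter_upwards [h1.eventually (gt_mem_nhds hδ)] with n hn
  exact good_win hf hne hN hC hR (ha n) hn

theorem fam_LW (hδ : 0 < δ) (hf : DifferentiableOn ℂ f (UR δ)) (hne : ∀ z ∈ UR δ, deriv f z ≠ 0)
    (hN : NV f (UR δ) N) (hC : ∀ (f : ℂ → ℂ) (c : ℂ) (r : ℝ),
      DifferentiableOn ℂ f (ball c r) → (∀ z ∈ ball c r, deriv f z ≠ 0) → NV f (ball c r) N →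
      ∀ z ∈ ball c r, ‖pre f z‖ * (r - dist z c) ≤ C) : Fam (LW f) C N := by
  have hgood : ∀ g ∈ LW f, ∀ R > 1, Good g C N R := by
    rintro g ⟨a, ha, ha0, hlim⟩
    exact good_lim (good_seq hδ hf hne hN hC ha ha0) hlim
  have hU1 : ∀ z ∈ HL, ∃ R > 1, z ∈ UR R := fun z hz =>
    ⟨‖z‖ + 2, by linarith [norm_nonneg z], UR_sub (by linarith) (mem_UR hz)⟩
  refine ⟨?_, ?_, ?_, ?_, ?_, ?_, ?_, fun h g hh hlim => LW_closed hh hlim⟩
  · intro g hg z hz
    obtain ⟨R, hR, hzR⟩ := hU1 z hz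
    exact (((hgood g hg R hR).diff z hzR).differentiableAt
      ((isOpen_UR R).mem_nhds hzR)).differentiableWithinAt
  · exact fun g hg => (hgood g hg 2 (by norm_num)).zero
  · exact fun g hg => (hgood g hg 2 (by norm_num)).one
  · intro g hg z hz
    obtain ⟨R, hR, hzR⟩ := hU1 z hz
    exact (hgood g hg R hR).ne z hzR
  · intro g hg z hz
    obtain ⟨R, hR, hzR⟩ := hU1 z hz
    exact (hgood g hg R hR).bd z hzR
  · intro g hg x s hs
    obtain ⟨B, hB⟩ := s.finite_toSet.isCompact.isBounded.exists_norm_le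
    have hB1 : 1 < max B 0 + 2 := by linarith [le_max_right B 0]
    refine (hgood g hg _ hB1).nv x s fun z hz => ⟨⟨?_, (hs z hz).1⟩, (hs z hz).2⟩
    rw [mem_ball_zero_iff]
    linarith [hB z hz, le_max_left B 0]
  · -- windows of limits
    rintro g ⟨a, ha, ha0, hlim⟩ b hb
    have hg : g ∈ LW f := ⟨a, ha, ha0, hlim⟩
    obtain ⟨R, hR, hbR⟩ := hU1 b hb
    have hgR := hgood g hg R hR
    have hgs := good_seq hδ hf hne hN hC ha ha0
    have hgd : DifferentiableOn ℂ g HL := by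
      intro z hz
      obtain ⟨R, hR, hzR⟩ := hU1 z hz
      exact (((hgood g hg R hR).diff z hzR).differentiableAt
        ((isOpen_UR R).mem_nhds hzR)).differentiableWithinAt
    have hd0 : ∀ᶠ n in atTop, DifferentiableOn ℂ (win f (a n)) (UR R) :=
      (hgs R hR).mono fun n hn => hn.diff
    have hder : Tendsto (fun n => deriv (win f (a n)) b) atTop (𝓝 (deriv g b)) :=
      ((hlim.mono (inter_subset_right : UR R ⊆ HL)).deriv hd0 (isOpen_UR R)).tendsto_at hbR
    -- small points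
    have hmvl : Tendsto (fun n => mv (a n) b) atTop (𝓝 0) := by
      have h1 : Tendsto (fun n => ‖a n‖ * (1 + R)) atTop (𝓝 0) := by
        have := (ha0.norm.mul_const (1 + R))
        rwa [norm_zero, zero_mul] at this
      exact squeeze_zero_norm (fun n => mv_norm (ha n) hbR) h1
    refine ⟨fun n => mv (a n) b, fun n => mv_mem (ha n) hb, hmvl, ?_⟩
    have hcomp : TendstoLocallyUniformlyOn (fun n => win f (a n) ∘ mv b) (g ∘ mv b) atTop HL :=
      hlim.comp (mv b) (fun z hz => mv_mem hb hz) (by unfold mv; fun_prop)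
    have hconst : TendstoLocallyUniformlyOn (fun n (_ : ℂ) => win f (a n) b) (fun _ => g b) atTop
        HL := by
      have h1 : Tendsto (fun n => win f (a n) b) atTop (𝓝 (g b)) := hlim.tendsto_at hb
      rw [Metric.tendstoLocallyUniformlyOn_iff]
      intro e he x _
      refine ⟨univ, univ_mem, ?_⟩
      rw [Metric.tendsto_nhds] at h1
      filter_upwards [h1 e he] with n hn y _
      rw [dist_comm]; exact hn
    have hconst2 : TendstoLocallyUniformlyOn
        (fun n (_ : ℂ) => ((-b.im : ℝ) : ℂ) * deriv (win f (a n)) b)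
        (fun _ => ((-b.im : ℝ) : ℂ) * deriv g b) atTop HL := by
      have h1 := hder.const_mul (((-b.im : ℝ) : ℂ))
      rw [Metric.tendstoLocallyUniformlyOn_iff]
      intro e he x _
      refine ⟨univ, univ_mem, ?_⟩
      rw [Metric.tendsto_nhds] at h1
      filter_upwards [h1 e he] with n hn y _
      rw [dist_comm]; exact hn
    have hgc : ContinuousOn (g ∘ mv b) HL :=
      hgd.continuousOn.comp (by unfold mv; fun_prop) (fun z hz => mv_mem hb hz)
    have hfin := (hcomp.sub hconst).div₀ hconst2 (hgc.sub continuousOn_const) continuousOn_const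
      (fun x _ => mul_ne_zero (mv_ne hb) (hgR.ne b hbR))
    have hfa : ∀ᶠ n in atTop, deriv f (a n) ≠ 0 ∧ DifferentiableAt ℂ f (mv (a n) b) := by
      have h1 : Tendsto (fun n => ‖a n‖) atTop (𝓝 0) := by
        have := ha0.norm
        rwa [norm_zero] at this
      have h2 : Tendsto (fun n => ‖mv (a n) b‖) atTop (𝓝 0) := by
        have := hmvl.norm
        rwa [norm_zero] at this
      filter_upwards [h1.eventually (gt_mem_nhds hδ), h2.eventually (gt_mem_nhds hδ)] with n hn1 hn2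
      have m1 : a n ∈ UR δ := ⟨by rw [mem_ball_zero_iff]; exact hn1, ha n⟩
      have m2 : mv (a n) b ∈ UR δ := ⟨by rw [mem_ball_zero_iff]; exact hn2, mv_mem (ha n) hb⟩
      exact ⟨hne _ m1, (hf _ m2).differentiableAt ((isOpen_UR δ).mem_nhds m2)⟩
    rw [Metric.tendstoLocallyUniformlyOn_iff] at hfin ⊢
    intro e he z hz
    obtain ⟨t, ht, hev⟩ := hfin e he z hz
    refine ⟨t, ht, ?_⟩
    filter_upwards [hev, hfa] with n hn1 hn2 y hy
    rw [win_win (ha n) hn2.1 hn2.2 y]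
    exact hn1 y hy

theorem LW_nonempty (hδ : 0 < δ) (hf : DifferentiableOn ℂ f (UR δ))
    (hne : ∀ z ∈ UR δ, deriv f z ≠ 0)
    (hN : NV f (UR δ) N) (hC : ∀ (f : ℂ → ℂ) (c : ℂ) (r : ℝ),
      DifferentiableOn ℂ f (ball c r) → (∀ z ∈ ball c r, deriv f z ≠ 0) → NV f (ball c r) N →
      ∀ z ∈ ball c r, ‖pre f z‖ * (r - dist z c) ≤ C) : (LW f).Nonempty := by
  set a : ℕ → ℂ := fun n => ((1 / ((n:ℝ) + 1) : ℝ) : ℂ) * (-I) with ha
  have haH : ∀ n, a n ∈ HL := by
    intro n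
    have : (0:ℝ) < 1 / ((n:ℝ) + 1) := by positivity
    show (a n).im < 0
    simp only [ha, Complex.mul_im, Complex.ofReal_re, Complex.neg_im, Complex.I_im,
      Complex.ofReal_im, Complex.neg_re, Complex.I_re]
    linarith
  have ha0 : Tendsto a atTop (𝓝 0) := by
    have h1 : Tendsto (fun n : ℕ => ((1 / ((n:ℝ) + 1) : ℝ) : ℂ)) atTop (𝓝 ((0:ℝ) : ℂ)) :=
      (Complex.continuous_ofReal.tendsto 0).comp tendsto_one_div_add_atTop_nhds_zero_nat
    have h2 := h1.mul_const (-I)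
    rw [Complex.ofReal_zero, zero_mul] at h2
    exact h2
  have hgs := good_seq hδ hf hne hN hC haH ha0
  obtain ⟨φ, g, hφ, -, hlim⟩ := Pool.Agent.Lib.MP_ae5b4e_an_UT.montel
    (f := fun n => win f (a n)) (U := HL) isOpen_HL (by
      intro x hx
      obtain ⟨R, hR, r, hr, hsub, M, hM⟩ := good_bound C N hx
      refine ⟨r, hr, M, ?_⟩
      filter_upwards [hgs R hR] with n hn
      exact ⟨hn.diff.mono hsub, hM _ hn⟩)
  exact ⟨g, fun n => a (φ n), fun n => haH _, ha0.comp hφ.tendsto_atTop, hlim⟩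

/-- injectivity passes from the limit to the windows, on compact discs -/
theorem inj_of_lim {w : ℕ → ℂ → ℂ} {g : ℂ → ℂ} (hg : DifferentiableOn ℂ g HL)
    (hne : ∀ z ∈ HL, deriv g z ≠ 0) (hgi : InjOn g HL)
    (hd : ∀ R > 1, ∀ᶠ n in atTop, DifferentiableOn ℂ (w n) (UR R))
    (hlim : TendstoLocallyUniformlyOn w g atTop HL) {K : Set ℂ} (hK : IsCompact K) (hKH : K ⊆ HL) :
    ∀ᶠ n in atTop, InjOn (w n) K := by
  by_contra hcon
  rw [not_eventually] at hcon
  have hfr : ∃ᶠ n in atTop, ∃ p ∈ K ×ˢ K, w n p.1 = w n p.2 ∧ p.1 ≠ p.2 := by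
    refine hcon.mono fun n hn => ?_
    unfold InjOn at hn
    push Not at hn
    obtain ⟨u, hu, v, hv, huv, hne⟩ := hn
    exact ⟨(u, v), ⟨hu, hv⟩, huv, hne⟩
  obtain ⟨φ, hφ, hφp⟩ := extraction_of_frequently_atTop hfr
  choose p hpK hpw hpne using hφp
  obtain ⟨q, hq, ψ, hψ, hpl⟩ := (hK.prod hK).tendsto_subseq hpK
  have hθ : StrictMono (φ ∘ ψ) := hφ.comp hψ
  have p1 : Tendsto (fun n => (p (ψ n)).1) atTop (𝓝 q.1) :=
    (continuous_fst.tendsto q).comp hpl
  have p2 : Tendsto (fun n => (p (ψ n)).2) atTop (𝓝 q.2) :=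
    (continuous_snd.tendsto q).comp hpl
  have hlim' : TendstoLocallyUniformlyOn (fun n => w (φ (ψ n))) g atTop HL := by
    intro u hu x hx
    obtain ⟨t, ht, hev⟩ := hlim u hu x hx
    exact ⟨t, ht, hθ.tendsto_atTop.eventually hev⟩
  have hval : ∀ (x : ℕ → ℂ) (y : ℂ), y ∈ HL → Tendsto x atTop (𝓝 y) →
      Tendsto (fun n => w (φ (ψ n)) (x n)) atTop (𝓝 (g y)) := by
    intro x y hy hx
    have hc : ContinuousAt g y := (hg.continuousOn.continuousAt (isOpen_HL.mem_nhds hy))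
    rw [Metric.tendsto_nhds]
    intro e he
    rw [Metric.tendstoLocallyUniformlyOn_iff] at hlim'
    obtain ⟨t, ht, hev⟩ := hlim' (e / 2) (by positivity) y hy
    rw [isOpen_HL.nhdsWithin_eq hy] at ht
    filter_upwards [hev, hx.eventually ht, (Metric.tendsto_nhds.mp (hc.tendsto.comp hx)) (e / 2)
      (by positivity)] with n h1 h2 h3
    have h4 := h1 (x n) h2
    rw [dist_comm] at h4
    calc dist (w (φ (ψ n)) (x n)) (g y) ≤ dist (w (φ (ψ n)) (x n)) (g (x n)) + dist (g (x n)) (g y) :=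
          dist_triangle _ _ _
      _ < e / 2 + e / 2 := add_lt_add h4 h3
      _ = e := by ring
  have hq12 : q.1 = q.2 := by
    have h1 := hval _ _ (hKH hq.1) p1
    have h2 := hval _ _ (hKH hq.2) p2
    have h3 : (fun n => w (φ (ψ n)) (p (ψ n)).1) = fun n => w (φ (ψ n)) (p (ψ n)).2 := by
      funext n; exact hpw _
    rw [h3] at h1
    exact hgi (hKH hq.1) (hKH hq.2) (tendsto_nhds_unique h1 h2)
  -- local injectivity near `q.1`
  set z₀ := q.1 with hz₀
  have hz₀H : z₀ ∈ HL := hKH hq.1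
  have hA : 0 < ‖deriv g z₀‖ := norm_pos_iff.mpr (hne z₀ hz₀H)
  set R : ℝ := ‖z₀‖ + 2 with hR
  have hR1 : R > 1 := by rw [hR]; linarith [norm_nonneg z₀]
  have hz₀R : z₀ ∈ UR R := ⟨by rw [mem_ball_zero_iff]; linarith, hz₀H⟩
  have hdR : ∀ᶠ n in atTop, DifferentiableOn ℂ (w (φ (ψ n))) (UR R) :=
    hθ.tendsto_atTop.eventually (hd R hR1)
  have hl1 : TendstoLocallyUniformlyOn (fun n => deriv (w (φ (ψ n)))) (deriv g) atTop (UR R) :=
    (hlim'.mono inter_subset_right).deriv hdR (isOpen_UR R)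
  have hgc : ContinuousAt (deriv g) z₀ :=
    ((hg.deriv isOpen_HL).continuousOn.continuousAt (isOpen_HL.mem_nhds hz₀H))
  rw [Metric.tendstoLocallyUniformlyOn_iff] at hl1
  obtain ⟨t, ht, hev⟩ := hl1 (‖deriv g z₀‖ / 4) (by positivity) z₀ hz₀R
  rw [(isOpen_UR R).nhdsWithin_eq hz₀R] at ht
  obtain ⟨r, hr, hball⟩ : ∃ r > 0, ∀ z ∈ ball z₀ r, z ∈ t ∧ z ∈ UR R ∧
      dist (deriv g z) (deriv g z₀) < ‖deriv g z₀‖ / 4 := by
    have h1 : ∀ᶠ z in 𝓝 z₀, z ∈ t ∧ z ∈ UR R ∧ dist (deriv g z) (deriv g z₀) < ‖deriv g z₀‖ / 4 :=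
      Filter.Eventually.and ht (Filter.Eventually.and ((isOpen_UR R).mem_nhds hz₀R)
        ((Metric.tendsto_nhds.mp hgc) _ (by positivity)))
    exact Metric.eventually_nhds_iff_ball.mp h1
  rw [← hq12] at p2
  obtain ⟨n, hn1, hn2, hn3, hn4⟩ := (hev.and (hdR.and
    ((p1.eventually (ball_mem_nhds z₀ hr)).and (p2.eventually (ball_mem_nhds z₀ hr))))).exists
  have hwd : ∀ z ∈ ball z₀ r, HasDerivAt (fun z => w (φ (ψ n)) z - deriv g z₀ * z)
      (deriv (w (φ (ψ n))) z - deriv g z₀) z := by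
    intro z hz
    have h1 : HasDerivAt (w (φ (ψ n))) (deriv (w (φ (ψ n))) z) z :=
      ((hn2 z (hball z hz).2.1).differentiableAt
        ((isOpen_UR R).mem_nhds (hball z hz).2.1)).hasDerivAt
    have h2 : HasDerivAt (fun z : ℂ => deriv g z₀ * z) (deriv g z₀) z := by
      simpa using (hasDerivAt_id z).const_mul (deriv g z₀)
    exact h1.sub h2
  have hbd : ∀ z ∈ ball z₀ r, ‖deriv (w (φ (ψ n))) z - deriv g z₀‖ ≤ ‖deriv g z₀‖ / 2 := by
    intro z hz
    obtain ⟨h1, h2, h3⟩ := hball z hz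
    have h4 := hn1 z h1
    rw [dist_comm] at h4
    rw [← dist_eq_norm]
    have := dist_triangle (deriv (w (φ (ψ n))) z) (deriv g z) (deriv g z₀)
    linarith
  have h5 := (convex_ball z₀ r).norm_image_sub_le_of_norm_hasDerivWithin_le
    (fun z hz => (hwd z hz).hasDerivWithinAt) hbd hn4 hn3
  have h6 := hpw (ψ n)
  rw [h6] at h5
  have h7 : w (φ (ψ n)) (p (ψ n)).2 - deriv g z₀ * (p (ψ n)).1 -
      (w (φ (ψ n)) (p (ψ n)).2 - deriv g z₀ * (p (ψ n)).2) =
      -(deriv g z₀ * ((p (ψ n)).1 - (p (ψ n)).2)) := by ring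
  rw [h7, norm_neg, norm_mul] at h5
  have h8 : 0 < ‖(p (ψ n)).1 - (p (ψ n)).2‖ := norm_pos_iff.mpr (sub_ne_zero.mpr (hpne (ψ n)))
  nlinarith

end

/-- **Theorem.** Finitely valent locally injective functions are univalent on windows which tend to any
given boundary point. -/
theorem top_uni (β : ℂ) {δ : ℝ} (hδ : 0 < δ) (N : ℕ) {f : ℂ → ℂ}
    (hf : DifferentiableOn ℂ f (ball β δ ∩ {z | z.im < β.im}))
    (hne : ∀ z ∈ ball β δ ∩ {z | z.im < β.im}, deriv f z ≠ 0)
    (hN : ∀ u : Fin (N + 1) → ℂ, (∀ i, u i ∈ ball β δ ∩ {z | z.im < β.im}) →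
      (∀ i, f (u i) = f (u 0)) → ∃ i j, i ≠ j ∧ u i = u j)
    {θ : ℝ} (hθ : 0 < θ) (hθ1 : θ < 1) :
    ∀ ε > 0, ∃ w ∈ ball β ε, w ∈ ball β δ ∩ {z | z.im < β.im} ∧ 0 < β.im - w.im ∧
      InjOn f (ball w (θ * (β.im - w.im))) := by
  intro ε hε
  have hNV : NV f (ball β δ ∩ {z | z.im < β.im}) N := nv_iff.mpr hN
  -- translation
  set f₁ : ℂ → ℂ := fun z => f (z + β) with hf₁
  have hmap : ∀ z ∈ UR δ, z + β ∈ ball β δ ∩ {z | z.im < β.im} := by
    intro z hz
    have h1 := mem_ball_zero_iff.mp hz.1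
    have h2 : z.im < 0 := hz.2
    refine ⟨by rw [mem_ball_iff_norm, add_sub_cancel_right]; exact h1, ?_⟩
    show (z + β).im < β.im
    rw [Complex.add_im]; linarith
  have hDo : IsOpen (ball β δ ∩ {z : ℂ | z.im < β.im}) :=
    isOpen_ball.inter (isOpen_lt Complex.continuous_im continuous_const)
  have hd1 : ∀ z ∈ UR δ, HasDerivAt f₁ (deriv f (z + β)) z := by
    intro z hz
    have h1 : HasDerivAt f (deriv f (z + β)) (z + β) :=
      ((hf _ (hmap z hz)).differentiableAt (hDo.mem_nhds (hmap z hz))).hasDerivAt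
    exact h1.comp_add_const z β
  have hf1d : DifferentiableOn ℂ f₁ (UR δ) := fun z hz =>
    (hd1 z hz).differentiableAt.differentiableWithinAt
  have hne1 : ∀ z ∈ UR δ, deriv f₁ z ≠ 0 := by
    intro z hz
    rw [(hd1 z hz).deriv]
    exact hne _ (hmap z hz)
  have hN1 : NV f₁ (UR δ) N := by
    intro x s hs
    have h1 : (s.image (fun z : ℂ => z + β)).card = s.card :=
      Finset.card_image_of_injective _ (add_left_injective β)
    rw [← h1]
    refine hNV x _ fun z hz => ?_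
    obtain ⟨v, hv, rfl⟩ := Finset.mem_image.mp hz
    exact ⟨hmap v (hs v hv).1, (hs v hv).2⟩
  obtain ⟨C, -, hC⟩ := presch_bound N
  have hF := fam_LW hδ hf1d hne1 hN1 hC
  obtain ⟨g, hg, hgi⟩ := exists_inj hF (LW_nonempty hδ hf1d hne1 hN1 hC)
  obtain ⟨a, ha, ha0, hlim⟩ := id hg
  have hgs := good_seq hδ hf1d hne1 hN1 hC ha ha0
  have hKH : closedBall (-I) θ ⊆ HL := by
    intro z hz
    rw [mem_closedBall, dist_eq_norm] at hz
    have := (Complex.abs_im_le_norm (z - -I)).trans hz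
    simp only [Complex.sub_im, Complex.neg_im, Complex.I_im] at this
    rw [abs_le] at this
    show z.im < 0
    linarith [this.2]
  have hinj := inj_of_lim (hF.diff g hg) (hF.ne g hg) hgi
    (fun R hR => (hgs R hR).mono fun n hn => hn.diff) hlim (isCompact_closedBall (-I) θ) hKH
  have hsm : ∀ᶠ n in atTop, ‖a n‖ < min ε δ := by
    have h1 : Tendsto (fun n => ‖a n‖) atTop (𝓝 0) := by
      have := ha0.norm
      rwa [norm_zero] at this
    exact h1.eventually (gt_mem_nhds (lt_min hε hδ))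
  obtain ⟨n, hn1, hn2⟩ := (hinj.and hsm).exists
  have haH : (a n).im < 0 := ha n
  have haU : a n ∈ UR δ := ⟨by
    rw [mem_ball_zero_iff]; exact hn2.trans_le (min_le_right _ _), ha n⟩
  refine ⟨a n + β, ?_, hmap _ haU, ?_, ?_⟩
  · rw [mem_ball_iff_norm, add_sub_cancel_right]
    exact hn2.trans_le (min_le_left _ _)
  · rw [Complex.add_im]; linarith
  · intro u hu v hv huv
    have e1 : β.im - (a n + β).im = -(a n).im := by rw [Complex.add_im]; ring
    rw [e1] at hu hv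
    have hmem : ∀ u ∈ ball (a n + β) (θ * -(a n).im), mi (a n) (u - β) ∈ closedBall (-I) θ := by
      intro u hu
      rw [mem_ball_iff_norm] at hu
      rw [mem_closedBall, dist_eq_norm]
      have h1 : u - (a n + β) = ((-(a n).im : ℝ) : ℂ) * (mi (a n) (u - β) - -I) := by
        rw [← mv_sub, mv_mi (ha n), mv_negI]; ring
      rw [h1, norm_mul, Complex.norm_real, Real.norm_of_nonneg (by linarith), mul_comm] at hu
      exact (lt_of_mul_lt_mul_right hu (by linarith)).le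
    have h2 : win f₁ (a n) (mi (a n) (u - β)) = win f₁ (a n) (mi (a n) (v - β)) := by
      rw [win_eq_iff (ha n) (hne1 _ haU), mv_mi (ha n), mv_mi (ha n)]
      simp only [hf₁, sub_add_cancel]
      exact huv
    have h3 := hn1 (hmem u hu) (hmem v hv) h2
    have h4 : mv (a n) (mi (a n) (u - β)) = mv (a n) (mi (a n) (v - β)) := by rw [h3]
    rw [mv_mi (ha n), mv_mi (ha n)] at h4
    linear_combination h4

end Pool.Agent.MP_ae5b4e_an_FVH
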