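import Mathlib
import Pool.Agent.Lib.MP_ae5b4e_an_UT.Hurw

/-!
# MP_ae5b4e_an, project FV, function theory, part 1: half plane, windows, finite valence
-/

noncomputable section

namespace Pool.Agent.MP_ae5b4e_an_FVH

open Complex Set Metric Filter Topology

/-- the lower half plane -/
def HL : Set ℂ := {z | z.im < 0}

theorem isOpen_HL : IsOpen HL := isOpen_lt Complex.continuous_im continuous_const

theorem convex_HL : Convex ℝ HL := convex_halfSpace_im_lt 0

theorem negI_mem : -I ∈ HL := by simp [HL]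

/-- the affine map of the half plane which maps `-i` to `a` -/
def mv (a z : ℂ) : ℂ := (a.re : ℂ) + ((-a.im : ℝ) : ℂ) * z

@[simp] theorem mv_im (a z : ℂ) : (mv a z).im = -a.im * z.im := by simp [mv]

@[simp] theorem mv_re (a z : ℂ) : (mv a z).re = a.re - a.im * z.re := by simp [mv]; ring

theorem mv_negI (a : ℂ) : mv a (-I) = a := by
  apply Complex.ext <;> simp

theorem mv_mem {a z : ℂ} (ha : a ∈ HL) (hz : z ∈ HL) : mv a z ∈ HL := by
  simp only [HL, mem_ofPred_eq, mv_im] at *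
  nlinarith

theorem mv_ne {a : ℂ} (ha : a ∈ HL) : (((-a.im : ℝ) : ℂ)) ≠ 0 := by
  simp only [HL, mem_ofPred_eq] at ha
  exact_mod_cast (by linarith : (-a.im : ℝ) ≠ 0)

theorem mv_inj {a : ℂ} (ha : a ∈ HL) : Function.Injective (mv a) := by
  intro z w h
  unfold mv at h
  exact mul_left_cancel₀ (mv_ne ha) (add_left_cancel h)

/-- the inverse of `mv a` -/
def mi (a z : ℂ) : ℂ := (z - (a.re : ℂ)) / ((-a.im : ℝ) : ℂ)

theorem mv_mi {a : ℂ} (ha : a ∈ HL) (z : ℂ) : mv a (mi a z) = z := by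
  unfold mv mi
  rw [mul_div_cancel₀ _ (mv_ne ha)]
  ring

theorem mi_mv {a : ℂ} (ha : a ∈ HL) (z : ℂ) : mi a (mv a z) = z := by
  apply mv_inj ha
  rw [mv_mi ha]

theorem mi_im {a : ℂ} (z : ℂ) : (mi a z).im = z.im / (-a.im) := by
  unfold mi
  rw [Complex.div_ofReal_im]
  simp

theorem mi_mem {a z : ℂ} (ha : a ∈ HL) (hz : z ∈ HL) : mi a z ∈ HL := by
  simp only [HL, mem_ofPred_eq] at *
  rw [mi_im]
  exact div_neg_of_neg_of_pos hz (by linarith)

theorem mv_sub (a z w : ℂ) : mv a z - mv a w = ((-a.im : ℝ) : ℂ) * (z - w) := by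
  unfold mv; ring

theorem mv_mv (a b z : ℂ) : mv a (mv b z) = mv (mv a b) z := by
  apply Complex.ext
  · simp only [mv_re, mv_im]; ring
  · simp only [mv_im]; ring

theorem mv_hasDerivAt (a z : ℂ) : HasDerivAt (mv a) ((-a.im : ℝ) : ℂ) z := by
  unfold mv
  simpa using ((hasDerivAt_id z).const_mul (((-a.im : ℝ) : ℂ))).const_add (a.re : ℂ)

/-- the normalised window of `g` at `a` -/
def win (g : ℂ → ℂ) (a z : ℂ) : ℂ := (g (mv a z) - g a) / (((-a.im : ℝ) : ℂ) * deriv g a)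

theorem win_negI (g : ℂ → ℂ) (a : ℂ) : win g a (-I) = 0 := by
  unfold win; rw [mv_negI]; simp

theorem win_deriv {g : ℂ → ℂ} {a : ℂ} (ha : a ∈ HL) (z : ℂ)
    (hg : DifferentiableAt ℂ g (mv a z)) :
    HasDerivAt (win g a) (deriv g (mv a z) / deriv g a) z := by
  have h1 : HasDerivAt (fun z => g (mv a z)) (deriv g (mv a z) * ((-a.im : ℝ) : ℂ)) z :=
    hg.hasDerivAt.comp z (mv_hasDerivAt a z)
  have h2 := (h1.sub_const (g a)).div_const (((-a.im : ℝ) : ℂ) * deriv g a)
  have h3 : deriv g (mv a z) * ((-a.im : ℝ) : ℂ) / (((-a.im : ℝ) : ℂ) * deriv g a) =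
      deriv g (mv a z) / deriv g a := by
    rw [mul_comm (deriv g (mv a z)), mul_div_mul_left _ _ (mv_ne ha)]
  rw [h3] at h2
  exact h2

theorem win_eq_iff {g : ℂ → ℂ} {a : ℂ} (ha : a ∈ HL) (hga : deriv g a ≠ 0) {z w : ℂ} :
    win g a z = win g a w ↔ g (mv a z) = g (mv a w) := by
  unfold win
  rw [div_left_inj' (mul_ne_zero (mv_ne ha) hga)]
  constructor
  · intro h; linear_combination h
  · intro h; rw [h]

/-- the function takes every value at most `N` times on `D` -/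
def NV (f : ℂ → ℂ) (D : Set ℂ) (N : ℕ) : Prop :=
  ∀ (x : ℂ) (s : Finset ℂ), (∀ z ∈ s, z ∈ D ∧ f z = x) → s.card ≤ N

theorem NV.mono {f : ℂ → ℂ} {D D' : Set ℂ} {N : ℕ} (h : NV f D N) (hD : D' ⊆ D) : NV f D' N :=
  fun x s hs => h x s fun z hz => ⟨hD (hs z hz).1, (hs z hz).2⟩

theorem NV.le {f : ℂ → ℂ} {D : Set ℂ} {N M : ℕ} (h : NV f D N) (hN : N ≤ M) : NV f D M :=
  fun x s hs => (h x s hs).trans hN

theorem NV.injOn {f : ℂ → ℂ} {D : Set ℂ} (h : NV f D 1) : InjOn f D := by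
  intro z hz w hw hzw
  by_contra hne
  have h1 := h (f w) {z, w} (by
    intro v hv
    rw [Finset.mem_insert, Finset.mem_singleton] at hv
    rcases hv with rfl | rfl
    · exact ⟨hz, hzw⟩
    · exact ⟨hw, rfl⟩)
  rw [Finset.card_pair hne] at h1
  omega

/-- the form with families -/
theorem nv_iff {f : ℂ → ℂ} {D : Set ℂ} {N : ℕ} : NV f D N ↔
    ∀ u : Fin (N + 1) → ℂ, (∀ i, u i ∈ D) → (∀ i, f (u i) = f (u 0)) → ∃ i j, i ≠ j ∧ u i = u j := by
  constructor
  · intro h u hu hf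
    by_contra hcon
    push Not at hcon
    have hinj : Function.Injective u := fun i j hij => by
      by_contra hne
      exact hcon i j hne hij
    have h1 := h (f (u 0)) (Finset.univ.image u) (by
      intro z hz
      obtain ⟨i, -, rfl⟩ := Finset.mem_image.mp hz
      exact ⟨hu i, hf i⟩)
    rw [Finset.card_image_of_injective _ hinj, Finset.card_univ, Fintype.card_fin] at h1
    omega
  · intro h x s hs
    by_contra hlt
    push Not at hlt
    obtain ⟨t, hts, htc⟩ := Finset.exists_subset_card_eq (Nat.succ_le_of_lt hlt)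
    have e : Fin (N + 1) ≃ t := (Fintype.equivFinOfCardEq (by simp [htc])).symm
    obtain ⟨i, j, hij, hu⟩ := h (fun i => (e i : ℂ)) (fun i => (hs _ (hts (e i).2)).1)
      (fun i => by rw [(hs _ (hts (e i).2)).2, (hs _ (hts (e 0).2)).2])
    exact hij (e.injective (Subtype.ext hu))

/-- the window is finitely valent as well -/
theorem NV.win {g : ℂ → ℂ} {N : ℕ} {a : ℂ} (ha : a ∈ HL) (hga : deriv g a ≠ 0)
    (h : NV g HL N) : NV (win g a) HL N := by
  intro x s hs
  have h1 : (s.image (mv a)).card = s.card := Finset.card_image_of_injective _ (mv_inj ha)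
  rw [← h1]
  refine h (g a + x * (((-a.im : ℝ) : ℂ) * deriv g a)) _ ?_
  intro z hz
  obtain ⟨w, hw, rfl⟩ := Finset.mem_image.mp hz
  refine ⟨mv_mem ha (hs w hw).1, ?_⟩
  have h2 := (hs w hw).2
  have h3 : ((-a.im : ℝ) : ℂ) * deriv g a ≠ 0 := mul_ne_zero (mv_ne ha) hga
  unfold MP_ae5b4e_an_FVH.win at h2
  rw [div_eq_iff h3] at h2
  linear_combination h2

/-- **Persistence** of a finite set of solutions. -/
theorem persist {ι : Type*} {l : Filter ι} {F : ι → ℂ → ℂ} {h : ℂ → ℂ} {U : Set ℂ} (hU : IsOpen U)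
    (hF : ∀ᶠ n in l, DifferentiableOn ℂ (F n) U) (hlim : TendstoLocallyUniformlyOn F h l U)
    {y : ℂ} {Y : ι → ℂ} (hY : Tendsto Y l (𝓝 y)) (s : Finset ℂ)
    (hs : ∀ z ∈ s, z ∈ U ∧ h z = y ∧ ¬ ∀ᶠ w in 𝓝 z, h w = y) {ε : ℝ} (hε : 0 < ε) :
    ∀ᶠ n in l, ∃ t : Finset ℂ, t.card = s.card ∧
      ∀ z ∈ t, z ∈ U ∧ F n z = Y n ∧ ∃ z' ∈ s, dist z z' < ε := by
  classical
  rcases l.eq_or_neBot with rfl | hNe
  · exact eventually_bot
  -- separation
  obtain ⟨η, hη, hsep⟩ : ∃ η > 0, ∀ z ∈ s, ∀ w ∈ s, z ≠ w → 2 * η ≤ dist z w := by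
    rcases s.eq_empty_or_nonempty with rfl | hne
    · exact ⟨1, one_pos, by simp⟩
    have h1 : ∀ z ∈ s, ∀ w ∈ s, ∃ r > 0, z ≠ w → r ≤ dist z w := by
      intro z _ w _
      by_cases hzw : z = w
      · exact ⟨1, one_pos, fun h => absurd hzw h⟩
      · exact ⟨dist z w, dist_pos.mpr hzw, fun _ => le_rfl⟩
    have h2 : ∀ z ∈ s, ∃ r > 0, ∀ w ∈ s, z ≠ w → r ≤ dist z w := by
      intro z hz
      have := h1 z hz
      choose! r hr0 hr using this
      refine ⟨s.inf' hne r, (Finset.lt_inf'_iff _).mpr hr0, fun w hw hzw =>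
        (Finset.inf'_le _ hw).trans (hr w hw hzw)⟩
    choose! r hr0 hr using h2
    refine ⟨s.inf' hne r / 2, half_pos ((Finset.lt_inf'_iff _).mpr hr0), fun z hz w hw hzw => ?_⟩
    have := (Finset.inf'_le r hz).trans (hr z hz w hw hzw)
    linarith
  have hlim' : TendstoLocallyUniformlyOn (fun n z => F n z - Y n) (fun z => h z - y) l U := by
    have h2 : TendstoLocallyUniformlyOn (fun n (_ : ℂ) => Y n) (fun _ => y) l U := by
      rw [Metric.tendstoLocallyUniformlyOn_iff]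
      intro e he x _
      refine ⟨univ, univ_mem, ?_⟩
      rw [Metric.tendsto_nhds] at hY
      filter_upwards [hY e he] with n hn y _
      rw [dist_comm]; exact hn
    exact hlim.sub h2
  have h3 : ∀ z ∈ s, ∀ᶠ n in l, ∃ w ∈ ball z (min ε η), w ∈ U ∧ F n w - Y n = 0 := by
    intro z hz
    obtain ⟨hzU, hzy, hnc⟩ := hs z hz
    exact Pool.Agent.Lib.MP_ae5b4e_an_UT.hurwitz_zero hU (hF.mono fun n hn => hn.sub_const _) hlim'
      hzU (by rw [hzy, sub_self]) (by simpa [sub_eq_zero] using hnc) (lt_min hε hη)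
  have h4 : ∀ᶠ n in l, ∀ z ∈ s, ∃ w ∈ ball z (min ε η), w ∈ U ∧ F n w - Y n = 0 := by
    rw [Finset.eventually_all]
    exact h3
  filter_upwards [h4] with n hn
  choose! w hw1 hw2 hw3 using hn
  refine ⟨s.image w, Finset.card_image_of_injOn ?_, ?_⟩
  · intro z hz z' hz' hww
    by_contra hne
    have h5 := hsep z hz z' hz' hne
    have h6 : dist z z' < η + η := by
      calc dist z z' ≤ dist z (w z) + dist (w z) z' := dist_triangle _ _ _
        _ < η + η := by
          refine add_lt_add ?_ ?_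
          · rw [dist_comm]
            exact (mem_ball.mp (hw1 z hz)).trans_le (min_le_right _ _)
          · have hww' : w z = w z' := hww
            rw [hww']
            exact (mem_ball.mp (hw1 z' hz')).trans_le (min_le_right _ _)
    linarith
  · intro v hv
    obtain ⟨z, hz, rfl⟩ := Finset.mem_image.mp hv
    exact ⟨hw2 z hz, sub_eq_zero.mp (hw3 z hz), z, hz,
      (mem_ball.mp (hw1 z hz)).trans_le (min_le_left _ _)⟩

/-- a function with nonvanishing derivative is nowhere locally constant -/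
theorem not_const {h : ℂ → ℂ} {z y : ℂ} (hz : deriv h z ≠ 0) : ¬ ∀ᶠ w in 𝓝 z, h w = y := by
  intro hcon
  have h1 : h =ᶠ[𝓝 z] fun _ => y := hcon
  rw [h1.deriv_eq] at hz
  simp at hz

end Pool.Agent.MP_ae5b4e_an_FVH
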