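import Pool.Agent.Lib.MP_ae5b4e_an_FVH.Full

/-!
# MP_ae5b4e_an, project FV, function theory, part 5: a compact family of finitely valent windows has an
injective member
-/

noncomputable section

namespace Pool.Agent.MP_ae5b4e_an_FVH

open Complex Set Metric Filter Topology

variable {G : Set (ℂ → ℂ)} {C : ℝ} {N p : ℕ}

/-- a holomorphic function on the half plane which is `O(|Im z|)` and bounded on strips vanishes -/
theorem zero_of_bound {f : ℂ → ℂ} (hf : DifferentiableOn ℂ f HL) {M : ℝ} {m : ℕ} (hm : 1 ≤ m)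
    (hM : 0 ≤ M) (hb : ∀ z ∈ HL, ‖f z‖ ≤ M * (-z.im) ^ m) : ∀ z ∈ HL, f z = 0 := by
  intro z hz
  have hz' : z.im < 0 := hz
  set y : ℝ := -z.im with hy
  have hy0 : 0 < y := by rw [hy]; linarith
  -- rotate: w ↦ f (w * (-I)), Re w = - Im (w * (-I))
  set F : ℂ → ℂ := fun w => f (-I * w) with hF
  have him : ∀ w : ℂ, (-I * w).im = -w.re := fun w => by simp
  have hw0 : (I * z).re = y := by simp [hy]
  have hFz : F (I * z) = f z := by
    have h1 : -I * (I * z) = z := by linear_combination (-z) * I_mul_I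
    show f (-I * (I * z)) = f z
    rw [h1]
  have key : ∀ ε : ℝ, 0 < ε → ε < y → ‖f z‖ ≤ (M * ε ^ m) ^ (1 - (y - ε) / (2 * y - ε)) *
      (M * (2 * y) ^ m) ^ ((y - ε) / (2 * y - ε)) := by
    intro ε hε hεy
    have hl : ε < 2 * y := by linarith
    have hsub : ∀ w ∈ Complex.HadamardThreeLines.verticalClosedStrip ε (2 * y), -I * w ∈ HL := by
      intro w hw
      have h1 : w.re ∈ Icc ε (2 * y) := hw
      show (-I * w).im < 0
      rw [him]; linarith [h1.1]
    have hsub' : ∀ w ∈ Complex.HadamardThreeLines.verticalStrip ε (2 * y), -I * w ∈ HL := by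
      intro w hw
      have h1 : w.re ∈ Ioo ε (2 * y) := hw
      show (-I * w).im < 0
      rw [him]; linarith [h1.1]
    have hFd : ∀ w ∈ Complex.HadamardThreeLines.verticalClosedStrip ε (2 * y),
        DifferentiableAt ℂ F w := by
      intro w hw
      have h1 : DifferentiableAt ℂ f (-I * w) :=
        (hf _ (hsub w hw)).differentiableAt (isOpen_HL.mem_nhds (hsub w hw))
      exact h1.comp w (by fun_prop)
    have hd : DiffContOnCl ℂ F (Complex.HadamardThreeLines.verticalStrip ε (2 * y)) := by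
      have hcl : closure (Complex.HadamardThreeLines.verticalStrip ε (2 * y)) ⊆
          Complex.HadamardThreeLines.verticalClosedStrip ε (2 * y) := by
        apply closure_minimal
        · intro w hw
          have h1 : w.re ∈ Ioo ε (2 * y) := hw
          exact ⟨h1.1.le, h1.2.le⟩
        · exact isClosed_Icc.preimage Complex.continuous_re
      refine ⟨fun w hw => (hFd w (hcl (subset_closure hw))).differentiableWithinAt, fun w hw =>
        (hFd w (hcl hw)).continuousAt.continuousWithinAt⟩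
    have hbd : ∀ w ∈ Complex.HadamardThreeLines.verticalClosedStrip ε (2 * y),
        ‖F w‖ ≤ M * w.re ^ m := by
      intro w hw
      have := hb _ (hsub w hw)
      rwa [him, neg_neg] at this
    have hB : BddAbove ((norm ∘ F) '' Complex.HadamardThreeLines.verticalClosedStrip ε (2 * y)) := by
      refine ⟨M * (2 * y) ^ m, ?_⟩
      rintro _ ⟨w, hw, rfl⟩
      have h1 : w.re ∈ Icc ε (2 * y) := hw
      exact (hbd w hw).trans (mul_le_mul_of_nonneg_left
        (pow_le_pow_left₀ (by linarith [h1.1]) h1.2 m) hM)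
    have h2 := Complex.HadamardThreeLines.norm_le_interp_of_mem_verticalClosedStrip' (f := F)
      (z := I * z) (a := M * ε ^ m) (b := M * (2 * y) ^ m) hl (by
        show (I * z).re ∈ Icc ε (2 * y)
        rw [hw0]; exact ⟨hεy.le, by linarith⟩) hd hB
      (fun w hw => by
        have h3 : w.re = ε := hw
        have := hbd w (by show w.re ∈ Icc ε (2 * y); rw [h3]; exact ⟨le_rfl, hl.le⟩)
        rwa [h3] at this)
      (fun w hw => by
        have h3 : w.re = 2 * y := hw
        have := hbd w (by show w.re ∈ Icc ε (2 * y); rw [h3]; exact ⟨hl.le, le_rfl⟩)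
        rwa [h3] at this)
    rw [hFz, hw0] at h2
    exact h2
  -- let ε tend to zero
  have hlim : Tendsto (fun ε : ℝ => (M * ε ^ m) ^ (1 - (y - ε) / (2 * y - ε)) *
      (M * (2 * y) ^ m) ^ ((y - ε) / (2 * y - ε))) (𝓝[>] 0) (𝓝 0) := by
    have hc : ContinuousAt (fun ε : ℝ => (y - ε) / (2 * y - ε)) 0 := by
      have : (2 * y - 0 : ℝ) ≠ 0 := by linarith
      exact ContinuousAt.div (by fun_prop) (by fun_prop) this
    have hc0 : (y - 0) / (2 * y - 0) = (1:ℝ) / 2 := by field_simp; ring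
    have h1 : Tendsto (fun ε : ℝ => (y - ε) / (2 * y - ε)) (𝓝 0) (𝓝 (1 / 2)) := by
      have := hc.tendsto
      rwa [hc0] at this
    have h2 : Tendsto (fun ε : ℝ => M * ε ^ m) (𝓝 0) (𝓝 0) := by
      have : ContinuousAt (fun ε : ℝ => M * ε ^ m) 0 := by fun_prop
      have h3 := this.tendsto
      simp only [zero_pow (by omega : m ≠ 0), mul_zero] at h3
      exact h3
    have h3 : Tendsto (fun ε : ℝ => (M * ε ^ m) ^ (1 - (y - ε) / (2 * y - ε))) (𝓝 0) (𝓝 0) := by
      have := h2.rpow (h1.const_sub 1) (Or.inr (by norm_num))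
      rwa [Real.zero_rpow (by norm_num)] at this
    have h4 : Tendsto (fun ε : ℝ => (M * (2 * y) ^ m) ^ ((y - ε) / (2 * y - ε))) (𝓝 0)
        (𝓝 ((M * (2 * y) ^ m) ^ (1 / 2 : ℝ))) :=
      (tendsto_const_nhds (x := M * (2 * y) ^ m)).rpow h1 (Or.inr (by norm_num))
    have h5 := h3.mul h4
    rw [zero_mul] at h5
    exact h5.mono_left nhdsWithin_le_nhds
  have h6 : ‖f z‖ ≤ 0 := by
    refine ge_of_tendsto hlim ?_
    have h7 : ∀ᶠ ε : ℝ in 𝓝[>] 0, ε ∈ Ioo 0 y := Ioo_mem_nhdsGT hy0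
    filter_upwards [h7] with ε hε using key ε hε.1 hε.2
  exact norm_le_zero_iff.mp h6

/-- the members of valence at most `p` form a family again -/
theorem Fam.sub (hF : Fam G C N) : Fam {h | h ∈ G ∧ NV h HL p} C N := by
  refine ⟨fun g hg => hF.diff g hg.1, fun g hg => hF.zero g hg.1, fun g hg => hF.one g hg.1,
    fun g hg => hF.ne g hg.1, fun g hg => hF.bd g hg.1, fun g hg => hF.nv g hg.1,
    fun g hg a ha => ⟨hF.re g hg.1 a ha, hg.2.win ha (hF.ne g hg.1 a ha)⟩, ?_⟩
  intro f g hf hlim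
  have hg : g ∈ G := hF.cl f g (fun n => (hf n).1) hlim
  refine ⟨hg, fun x s hs => ?_⟩
  obtain ⟨n, t, htc, ht⟩ := (hF.per (fun n => (hf n).1) hg hlim (y := x) (Y := fun _ => x)
    tendsto_const_nhds s hs one_pos).exists
  rw [← htc]
  exact (hf n).2 x t fun z hz => ⟨(ht z hz).1, (ht z hz).2.1⟩

/-- the other preimages are at bounded hyperbolic distance -/
theorem Fam.near (hF : Fam G C N) (hfull : ∀ g ∈ G, NV g HL p ∧ ∀ w ∈ HL, ∃ s : Finset ℂ,
    s.card = p ∧ ∀ z ∈ s, z ∈ HL ∧ g z = g w) :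
    ∃ M : ℝ, ∀ g ∈ G, ∀ z ∈ HL, ∀ z' ∈ HL, g z' = g z → ‖z' - z‖ ≤ M * (-z.im) := by
  classical
  have h1 : ∃ M : ℝ, ∀ g ∈ G, ∀ z' ∈ HL, g z' = 0 → ‖z' - -I‖ ≤ M := by
    by_contra hcon
    push Not at hcon
    choose g hg z hz hgz hzn using fun n : ℕ => hcon n
    obtain ⟨φ, h, hφ, hh, hlim⟩ := hF.compact hg
    obtain ⟨s, hsc, hs⟩ := (hfull h hh).2 (-I) negI_mem
    rw [hF.zero h hh] at hs
    have e1 := hF.per (fun n => hg (φ n)) hh hlim (y := 0) (Y := fun _ => 0) tendsto_const_nhds s hs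
      one_pos
    obtain ⟨B, hB⟩ := s.finite_toSet.isCompact.isBounded.exists_norm_le
    obtain ⟨n, ⟨t, htc, ht⟩, hn⟩ := (e1.and (eventually_ge_atTop ⌈B + 2⌉₊)).exists
    have hzt : z (φ n) ∈ t := by
      by_contra hnot
      have h2 := (hfull (g (φ n)) (hg _)).1 0 (insert (z (φ n)) t) (by
        intro v hv
        rw [Finset.mem_insert] at hv
        rcases hv with rfl | hv
        · exact ⟨hz _, hgz _⟩
        · exact ⟨(ht v hv).1, (ht v hv).2.1⟩)
      rw [Finset.card_insert_of_notMem hnot, htc, hsc] at h2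
      omega
    obtain ⟨-, -, z', hz', hd⟩ := ht _ hzt
    have h3 := hzn (φ n)
    have h4 : ‖z'‖ ≤ B := hB z' hz'
    have h5 : ((φ n : ℕ) : ℝ) ≥ B + 2 := by
      have h6 := Nat.le_ceil (B + 2)
      have h7 : ((⌈B + 2⌉₊ : ℕ) : ℝ) ≤ ((φ n : ℕ) : ℝ) := by exact_mod_cast hn.trans (hφ.id_le n)
      linarith
    have h8 : ‖z (φ n) - -I‖ ≤ dist (z (φ n)) z' + ‖z'‖ + 1 := by
      calc ‖z (φ n) - -I‖ = ‖(z (φ n) - z') + z' + I‖ := by congr 1; ring
        _ ≤ ‖z (φ n) - z'‖ + ‖z'‖ + ‖I‖ := norm_add₃_le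
        _ = dist (z (φ n)) z' + ‖z'‖ + 1 := by rw [dist_eq_norm, Complex.norm_I]
    linarith
  obtain ⟨M, hM⟩ := h1
  refine ⟨M, fun g hg z hz z' hz' hgz => ?_⟩
  have h2 := hM (win g z) (hF.re g hg z hz) (mi z z') (mi_mem hz hz') (by
    unfold win
    rw [mv_mi hz, hgz, sub_self, zero_div])
  have h3 : z' - z = ((-z.im : ℝ) : ℂ) * (mi z z' - -I) := by
    rw [← mv_sub, mv_mi hz, mv_negI]
  have hz0 : z.im < 0 := hz
  rw [h3, norm_mul, Complex.norm_real, Real.norm_of_nonneg (by linarith), mul_comm]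
  exact mul_le_mul_of_nonneg_right h2 (by linarith)

/-- the product over the other sheets -/
theorem Fam.no_full (hF : Fam G C N) (hp : 2 ≤ p) {g : ℂ → ℂ} (hg : g ∈ G)
    (hfull : ∀ g ∈ G, NV g HL p ∧ ∀ w ∈ HL, ∃ s : Finset ℂ,
      s.card = p ∧ ∀ z ∈ s, z ∈ HL ∧ g z = g w) : False := by
  classical
  obtain ⟨M, hM⟩ := hF.near hfull
  obtain ⟨hnv, hex⟩ := hfull g hg
  choose T hT using fun x => hnv.exists_all x
  have hTc : ∀ w ∈ HL, (T (g w)).card = p := by
    intro w hw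
    refine le_antisymm (hnv _ _ fun z hz => (hT _ z).mp hz) ?_
    obtain ⟨s, hsc, hs⟩ := hex w hw
    rw [← hsc]
    exact Finset.card_le_card fun z hz => (hT _ z).mpr (hs z hz)
  have hmem : ∀ w ∈ HL, w ∈ T (g w) := fun w hw => (hT _ w).mpr ⟨hw, rfl⟩
  set P : ℂ → ℂ := fun w => ∏ u ∈ (T (g w)).erase w, (u - w) with hP
  have hne : ∀ w, P w ≠ 0 := by
    intro w
    rw [hP]
    refine Finset.prod_ne_zero_iff.mpr fun u hu => ?_
    exact sub_ne_zero.mpr (Finset.ne_of_mem_erase hu)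
  have hM0 : 0 ≤ M := by
    have h1 := hM g hg (-I) negI_mem (-I) negI_mem rfl
    rw [sub_self, norm_zero] at h1
    simpa using h1
  have hPb : ∀ w ∈ HL, ‖P w‖ ≤ M ^ (p - 1) * (-w.im) ^ (p - 1) := by
    intro w hw
    rw [hP]
    simp only
    rw [norm_prod, ← mul_pow]
    have h1 : ((T (g w)).erase w).card = p - 1 := by
      rw [Finset.card_erase_of_mem (hmem w hw), hTc w hw]
    rw [← h1, ← Finset.prod_const]
    refine Finset.prod_le_prod (fun _ _ => norm_nonneg _) fun u hu => ?_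
    have h2 := (hT _ u).mp (Finset.mem_of_mem_erase hu)
    exact hM g hg w hw u h2.1 h2.2
  have hPd : DifferentiableOn ℂ P HL := by
    intro w₀ hw₀
    apply DifferentiableAt.differentiableWithinAt
    set T₀ := T (g w₀) with hT₀
    have hT₀H : ∀ v ∈ T₀, v ∈ HL ∧ g v = g w₀ := fun v hv => (hT _ v).mp hv
    have h1 : ∀ v ∈ T₀, ∃ ψ : ℂ → ℂ, (∀ᶠ u in 𝓝 v, ψ (g u) = u) ∧
        (∀ᶠ x in 𝓝 (g w₀), g (ψ x) = x) ∧ ψ (g w₀) = v ∧ DifferentiableAt ℂ ψ (g w₀) := by
      intro v hv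
      obtain ⟨hvH, hvg⟩ := hT₀H v hv
      obtain ⟨ψ, a1, a2, a3, a4⟩ := loc_inv (hF.an hg hvH) (hF.ne g hg v hvH)
      rw [hvg] at a2 a3 a4
      exact ⟨ψ, a1, a2, a3, a4⟩
    choose! ψ b1 b2 b3 b4 using h1
    have hgc : Tendsto g (𝓝 w₀) (𝓝 (g w₀)) := (hF.an hg hw₀).continuousAt
    have hψc : ∀ v ∈ T₀, Tendsto (fun w => ψ v (g w)) (𝓝 w₀) (𝓝 v) := by
      intro v hv
      have := (b4 v hv).continuousAt.tendsto
      rw [b3 v hv] at this
      exact this.comp hgc
    have c1 : ∀ᶠ w in 𝓝 w₀, ∀ v ∈ T₀, g (ψ v (g w)) = g w := by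
      rw [Finset.eventually_all]
      exact fun v hv => hgc.eventually (b2 v hv)
    have c2 : ∀ᶠ w in 𝓝 w₀, ∀ v ∈ T₀, ψ v (g w) ∈ HL := by
      rw [Finset.eventually_all]
      exact fun v hv => (hψc v hv).eventually (isOpen_HL.mem_nhds (hT₀H v hv).1)
    have c3 : ∀ᶠ w in 𝓝 w₀, ∀ v ∈ T₀, ∀ v' ∈ T₀, v ≠ v' → ψ v (g w) ≠ ψ v' (g w) := by
      rw [Finset.eventually_all]
      intro v hv
      rw [Finset.eventually_all]
      intro v' hv'
      by_cases hvv : v = v'
      · exact Eventually.of_forall fun w h => absurd hvv h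
      · filter_upwards [((hψc v hv).prodMk_nhds (hψc v' hv')).eventually
          (isOpen_ne_fun (continuous_fst) (continuous_snd) |>.mem_nhds hvv)] with w hw _
        exact hw
    have hw₀T : w₀ ∈ T₀ := hmem w₀ hw₀
    have c4 : ∀ᶠ w in 𝓝 w₀, ψ w₀ (g w) = w := b1 w₀ hw₀T
    have hev : P =ᶠ[𝓝 w₀] fun w => ∏ v ∈ T₀.erase w₀, (ψ v (g w) - w) := by
      filter_upwards [c1, c2, c3, c4, isOpen_HL.mem_nhds hw₀] with w d1 d2 d3 d4 d5
      have hinj : InjOn (fun v => ψ v (g w)) (T₀ : Set ℂ) := by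
        intro v hv v' hv' h
        by_contra hvv
        exact d3 v hv v' hv' hvv h
      have himg : T (g w) = T₀.image (fun v => ψ v (g w)) := by
        symm
        apply Finset.eq_of_subset_of_card_le
        · intro u hu
          obtain ⟨v, hv, rfl⟩ := Finset.mem_image.mp hu
          exact (hT _ _).mpr ⟨d2 v hv, d1 v hv⟩
        · rw [Finset.card_image_of_injOn hinj, hTc w d5, hTc w₀ hw₀]
      have herase : (T (g w)).erase w = (T₀.erase w₀).image (fun v => ψ v (g w)) := by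
        ext u
        rw [Finset.mem_erase, himg, Finset.mem_image, Finset.mem_image]
        constructor
        · rintro ⟨h1, v, hv, rfl⟩
          refine ⟨v, Finset.mem_erase.mpr ⟨?_, hv⟩, rfl⟩
          rintro rfl
          exact h1 d4
        · rintro ⟨v, hv, rfl⟩
          obtain ⟨h1, h2⟩ := Finset.mem_erase.mp hv
          refine ⟨fun h => ?_, v, h2, rfl⟩
          apply h1
          apply hinj h2 hw₀T
          simp only
          rw [h, d4]
      rw [hP]
      simp only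
      rw [herase, Finset.prod_image]
      intro v hv v' hv' h
      exact hinj (Finset.mem_of_mem_erase hv) (Finset.mem_of_mem_erase hv') h
    refine DifferentiableAt.congr_of_eventuallyEq ?_ hev
    have hgd : DifferentiableAt ℂ g w₀ := (hF.an hg hw₀).differentiableAt
    refine DifferentiableAt.fun_finsetProd fun v hv => ?_
    exact ((b4 v (Finset.mem_of_mem_erase hv)).comp w₀ hgd).sub differentiableAt_id
  have h1 := zero_of_bound hPd (m := p - 1) (by omega) (pow_nonneg hM0 (p - 1)) hPb (-I) negI_mem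
  exact hne _ h1

/-- **Main theorem.** A nonempty compact family of finitely valent windows has an injective
member. -/
theorem exists_inj (hF : Fam G C N) (hG : G.Nonempty) : ∃ g ∈ G, InjOn g HL := by
  classical
  have hex : ∃ n, ∃ g ∈ G, NV g HL n := by
    obtain ⟨g, hg⟩ := hG
    exact ⟨N, g, hg, hF.nv g hg⟩
  set p := Nat.find hex with hp
  obtain ⟨g, hg, hgp⟩ : ∃ g ∈ G, NV g HL p := Nat.find_spec hex
  have hp1 : 1 ≤ p := by
    have := hgp (g (-I)) {-I} (by
      intro z hz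
      rw [Finset.mem_singleton] at hz
      subst hz
      exact ⟨negI_mem, rfl⟩)
    rwa [Finset.card_singleton] at this
  have hmin : ∀ h ∈ G, ∃ (y : ℂ) (s : Finset ℂ), p ≤ s.card ∧ ∀ z ∈ s, z ∈ HL ∧ h z = y := by
    intro h hh
    have h1 : ¬ ∃ g ∈ G, NV g HL (p - 1) := Nat.find_min hex (by omega)
    have h2 : ¬ NV h HL (p - 1) := fun h3 => h1 ⟨h, hh, h3⟩
    unfold NV at h2
    push Not at h2
    obtain ⟨x, s, hs, hsc⟩ := h2
    exact ⟨x, s, by omega, hs⟩
  rcases (Nat.lt_or_ge p 2) with h2 | h2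
  · have : p = 1 := by omega
    rw [this] at hgp
    exact ⟨g, hg, hgp.injOn⟩
  · exfalso
    have hS : Fam {h | h ∈ G ∧ NV h HL p} C N := hF.sub
    refine hS.no_full h2 (g := g) ⟨hg, hgp⟩ fun h hh => ⟨hh.2, ?_⟩
    exact hF.full hp1 hmin hh.1 hh.2

end Pool.Agent.MP_ae5b4e_an_FVH
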