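import Pool.Agent.Lib.MP_ae5b4e_an_FVH.Bound

/-!
# MP_ae5b4e_an, project FV, function theory, part 3: compact families of windows
-/

noncomputable section

namespace Pool.Agent.MP_ae5b4e_an_FVH

open Complex Set Metric Filter Topology

/-- a compact family of normalised finitely valent functions on the lower half plane, closed under
windows -/
structure Fam (G : Set (ℂ → ℂ)) (C : ℝ) (N : ℕ) : Prop where
  diff : ∀ g ∈ G, DifferentiableOn ℂ g HL
  zero : ∀ g ∈ G, g (-I) = 0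
  one : ∀ g ∈ G, deriv g (-I) = 1
  ne : ∀ g ∈ G, ∀ z ∈ HL, deriv g z ≠ 0
  bd : ∀ g ∈ G, ∀ z ∈ HL, ‖pre g z‖ * (-z.im) ≤ C
  nv : ∀ g ∈ G, NV g HL N
  re : ∀ g ∈ G, ∀ a ∈ HL, win g a ∈ G
  cl : ∀ (f : ℕ → ℂ → ℂ) (g : ℂ → ℂ), (∀ n, f n ∈ G) →
    TendstoLocallyUniformlyOn f g atTop HL → g ∈ G

/-- growth with an arbitrary base point -/
theorem growth' {f : ℂ → ℂ} {c b : ℂ} {r M : ℝ} (hr : 0 < r) (hf : DifferentiableOn ℂ f (ball c r))
    (h0 : ∀ z ∈ ball c r, deriv f z ≠ 0) (hM : ∀ z ∈ ball c r, ‖pre f z‖ ≤ M) (hb : b ∈ ball c r) :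
    (∀ z ∈ ball c r, ‖deriv f z‖ ≤ ‖deriv f b‖ * Real.exp (M * (2 * r))) ∧
    ∀ z ∈ ball c r, ‖f z - f b‖ ≤ ‖deriv f b‖ * Real.exp (M * (2 * r)) * (2 * r) := by
  have hM0 : 0 ≤ M := (norm_nonneg _).trans (hM b hb)
  obtain ⟨g, hg, hge, hgd, -⟩ :=
    Pool.Agent.Lib.MP_ae5b4e_an_UT.exists_log_ball hr (hf.deriv isOpen_ball) h0
  have h2r : ∀ z ∈ ball c r, ‖z - b‖ ≤ 2 * r := by
    intro z hz
    rw [← dist_eq_norm]
    have := dist_triangle_right z b c
    have h1 := mem_ball.mp hz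
    have h2 := mem_ball.mp hb
    linarith
  have h1 : ∀ z ∈ ball c r, ‖deriv f z‖ ≤ ‖deriv f b‖ * Real.exp (M * (2 * r)) := by
    intro z hz
    have h2 : ‖g z - g b‖ ≤ M * ‖z - b‖ :=
      (convex_ball c r).norm_image_sub_le_of_norm_hasDerivWithin_le
        (fun w hw => (hgd w hw).hasDerivWithinAt) (fun w hw => hM w hw) hb hz
    rw [← hge z hz, ← hge b hb, show g z = g b + (g z - g b) by ring, Complex.exp_add, norm_mul]
    refine mul_le_mul_of_nonneg_left ?_ (norm_nonneg _)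
    rw [Complex.norm_exp]
    refine Real.exp_le_exp.mpr ((Complex.re_le_norm _).trans (h2.trans ?_))
    exact mul_le_mul_of_nonneg_left (h2r z hz) hM0
  refine ⟨h1, fun z hz => ?_⟩
  have h2 : ‖f z - f b‖ ≤ ‖deriv f b‖ * Real.exp (M * (2 * r)) * ‖z - b‖ :=
    (convex_ball c r).norm_image_sub_le_of_norm_hasDerivWithin_le
      (fun w hw => ((hf w hw).differentiableAt (isOpen_ball.mem_nhds hw)).hasDerivAt.hasDerivWithinAt)
      (fun w hw => h1 w hw) hb hz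
  exact h2.trans (mul_le_mul_of_nonneg_left (h2r z hz) (by positivity))

/-- a large disc inside the half plane -/
theorem big_ball {m : ℝ} (hm : 0 < m) {R : ℝ} (hR : m < R) {z : ℂ} (hz : 3 / 2 * m ≤ -z.im)
    (hzR : ‖z‖ ^ 2 < R * m) : z ∈ ball (-(R:ℂ) * I) (R - m) := by
  have h1 : ‖z - (-(R:ℂ) * I)‖ ^ 2 < (R - m) ^ 2 := by
    rw [← Complex.normSq_eq_norm_sq] at hzR ⊢
    rw [Complex.normSq_apply] at hzR ⊢
    simp only [Complex.sub_re, Complex.sub_im, Complex.mul_re, Complex.mul_im, Complex.neg_re,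
      Complex.neg_im, Complex.ofReal_re, Complex.ofReal_im, Complex.I_re, Complex.I_im]
    nlinarith [mul_le_mul_of_nonneg_left hz (by linarith : (0:ℝ) ≤ R), sq_nonneg m]
  rw [mem_ball_iff_norm]
  exact lt_of_pow_lt_pow_left₀ 2 (by linarith) h1

theorem big_ball_im {m R : ℝ} {z : ℂ} (hz : z ∈ ball (-(R:ℂ) * I) (R - m)) : m < -z.im := by
  rw [mem_ball_iff_norm] at hz
  have h1 := (Complex.abs_im_le_norm (z - (-(R:ℂ) * I))).trans_lt hz
  simp only [Complex.sub_im, Complex.mul_im, Complex.neg_re, Complex.neg_im, Complex.ofReal_re,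
    Complex.ofReal_im, Complex.I_re, Complex.I_im] at h1
  rw [abs_lt] at h1
  linarith [h1.2]

variable {G : Set (ℂ → ℂ)} {C : ℝ} {N : ℕ}

theorem Fam.loc_bound (hF : Fam G C N) {x : ℂ} (hx : x ∈ HL) :
    ∃ r > 0, ball x r ⊆ HL ∧ ∃ M : ℝ, ∀ g ∈ G, ∀ y ∈ ball x r, ‖g y‖ ≤ M := by
  have hx' : x.im < 0 := hx
  set m : ℝ := min 1 (-x.im) / 2 with hm
  have hm0 : 0 < m := by
    have : 0 < min 1 (-x.im) := lt_min one_pos (by linarith)
    linarith
  have hm1 : 2 * m ≤ 1 := by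
    have : min 1 (-x.im) ≤ 1 := min_le_left _ _
    linarith
  have hm2 : 2 * m ≤ -x.im := by
    have : min 1 (-x.im) ≤ -x.im := min_le_right _ _
    linarith
  have hsub : ∀ y ∈ ball x (m / 2), 3 / 2 * m ≤ -y.im ∧ ‖y‖ < ‖x‖ + 1 := by
    intro y hy
    rw [mem_ball_iff_norm] at hy
    constructor
    · have h1 := (Complex.abs_im_le_norm (y - x)).trans_lt hy
      rw [Complex.sub_im, abs_lt] at h1
      linarith [h1.2]
    · calc ‖y‖ = ‖x + (y - x)‖ := by rw [add_sub_cancel]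
        _ ≤ ‖x‖ + ‖y - x‖ := norm_add_le _ _
        _ < ‖x‖ + 1 := by linarith
  set R : ℝ := (‖x‖ + 1) ^ 2 / m + 1 + m with hR
  have hRm : (‖x‖ + 1) ^ 2 < R * m := by
    have : R * m = (‖x‖ + 1) ^ 2 + (1 + m) * m := by
      rw [hR]; field_simp; ring
    rw [this]
    have : 0 < (1 + m) * m := by positivity
    linarith
  have hRm' : m < R := by
    have : 0 ≤ (‖x‖ + 1) ^ 2 / m := by positivity
    rw [hR]; linarith
  set B : Set ℂ := ball (-(R:ℂ) * I) (R - m) with hB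
  have hBH : B ⊆ HL := by
    intro z hz
    have := big_ball_im hz
    show z.im < 0
    linarith
  have hI : -I ∈ B := by
    apply big_ball hm0 hRm'
    · simp; linarith
    · rw [norm_neg, Complex.norm_I]
      nlinarith [norm_nonneg x]
  have hyB : ∀ y ∈ ball x (m / 2), y ∈ B := by
    intro y hy
    obtain ⟨h1, h2⟩ := hsub y hy
    apply big_ball hm0 hRm' h1
    calc ‖y‖ ^ 2 ≤ (‖x‖ + 1) ^ 2 := pow_le_pow_left₀ (norm_nonneg _) h2.le 2
      _ < R * m := hRm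
  refine ⟨m / 2, by positivity, fun y hy => hBH (hyB y hy),
    Real.exp (C / m * (2 * (R - m))) * (2 * (R - m)), fun g hg y hy => ?_⟩
  have h3 := (growth' (f := g) (c := -(R:ℂ) * I) (b := -I) (r := R - m) (M := C / m)
    (by linarith) ((hF.diff g hg).mono hBH) (fun z hz => hF.ne g hg z (hBH hz)) (by
      intro z hz
      have h4 := hF.bd g hg z (hBH hz)
      have h5 := big_ball_im hz
      rw [le_div_iff₀ hm0]
      exact (mul_le_mul_of_nonneg_left h5.le (norm_nonneg _)).trans h4) hI).2 y (hyB y hy)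
  rwa [hF.zero g hg, hF.one g hg, sub_zero, norm_one, one_mul] at h3

/-- **Compactness.** -/
theorem Fam.compact (hF : Fam G C N) {f : ℕ → ℂ → ℂ} (hf : ∀ n, f n ∈ G) :
    ∃ (φ : ℕ → ℕ) (g : ℂ → ℂ), StrictMono φ ∧ g ∈ G ∧
      TendstoLocallyUniformlyOn (fun n => f (φ n)) g atTop HL := by
  obtain ⟨φ, g, hφ, -, hlim⟩ := Pool.Agent.Lib.MP_ae5b4e_an_UT.montel (f := f) (U := HL)
    isOpen_HL (by
      intro x hx
      obtain ⟨r, hr, hrH, M, hM⟩ := hF.loc_bound hx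
      exact ⟨r, hr, M, Eventually.of_forall fun n =>
        ⟨(hF.diff _ (hf n)).mono hrH, fun y hy => hM _ (hf n) y hy⟩⟩)
  exact ⟨φ, g, hφ, hF.cl _ g (fun n => hf (φ n)) hlim, hlim⟩

theorem Fam.per (hF : Fam G C N) {f : ℕ → ℂ → ℂ} {g : ℂ → ℂ} (hf : ∀ n, f n ∈ G) (hg : g ∈ G)
    (hlim : TendstoLocallyUniformlyOn f g atTop HL) {y : ℂ} {Y : ℕ → ℂ}
    (hY : Tendsto Y atTop (𝓝 y)) (s : Finset ℂ) (hs : ∀ z ∈ s, z ∈ HL ∧ g z = y) {ε : ℝ}
    (hε : 0 < ε) : ∀ᶠ n in atTop, ∃ t : Finset ℂ, t.card = s.card ∧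
      ∀ z ∈ t, z ∈ HL ∧ f n z = Y n ∧ ∃ z' ∈ s, dist z z' < ε :=
  persist isOpen_HL (Eventually.of_forall fun n => hF.diff _ (hf n)) hlim hY s
    (fun z hz => ⟨(hs z hz).1, (hs z hz).2, not_const (hF.ne g hg z (hs z hz).1)⟩) hε

/-- the image of a window contains a disc of fixed size -/
theorem Fam.img (hF : Fam G C N) : ∃ c₀ > 0, ∀ w ∈ G, ∀ y : ℂ, ‖y‖ < c₀ →
    ∃ z ∈ ball (-I) (1 / 2), w z = y := by
  by_contra hcon
  push Not at hcon
  have h1 : ∀ n : ℕ, ∃ w ∈ G, ∃ y : ℂ, ‖y‖ < 1 / ((n:ℝ) + 1) ∧ ∀ z ∈ ball (-I) (1 / 2), w z ≠ y :=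
    fun n => hcon _ (by positivity)
  choose w hw y hy hwy using h1
  obtain ⟨φ, g, hφ, hg, hlim⟩ := hF.compact hw
  have hY : Tendsto (fun n => y (φ n)) atTop (𝓝 0) := by
    have h2 : Tendsto y atTop (𝓝 0) :=
      squeeze_zero_norm (fun n => (hy n).le) tendsto_one_div_add_atTop_nhds_zero_nat
    exact h2.comp hφ.tendsto_atTop
  obtain ⟨n, t, htc, ht⟩ := (hF.per (fun n => hw (φ n)) hg hlim hY {-I} (by
    intro z hz
    rw [Finset.mem_singleton] at hz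
    subst hz
    exact ⟨negI_mem, hF.zero g hg⟩) (ε := 1 / 2) (by norm_num)).exists
  rw [Finset.card_singleton] at htc
  obtain ⟨z, hz⟩ := Finset.card_pos.mp (by rw [htc]; norm_num : 0 < t.card)
  obtain ⟨-, h3, z', hz', h4⟩ := ht z hz
  rw [Finset.mem_singleton] at hz'
  subst hz'
  exact hwy (φ n) z h4 h3

/-- the set of all preimages -/
theorem NV.exists_all {f : ℂ → ℂ} {D : Set ℂ} (h : NV f D N) (x : ℂ) :
    ∃ T : Finset ℂ, ∀ z, z ∈ T ↔ z ∈ D ∧ f z = x := by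
  have hfin : {z | z ∈ D ∧ f z = x}.Finite := by
    by_contra hinf
    obtain ⟨t, ht, htc⟩ := Set.Infinite.exists_subset_card_eq hinf (N + 1)
    have := h x t fun z hz => ht hz
    omega
  exact ⟨hfin.toFinset, fun z => by rw [Set.Finite.mem_toFinset]; rfl⟩

/-- the sequence leaves every compact subset of the half plane -/
def Esc (a : ℕ → ℂ) : Prop := ∀ K : Set ℂ, IsCompact K → K ⊆ HL → ∀ᶠ n in atTop, a n ∉ K

theorem Esc.mv {a : ℕ → ℂ} (h : Esc a) (ha : ∀ n, a n ∈ HL) {K₁ K₂ : Set ℂ} (h1 : IsCompact K₁)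
    (h2 : IsCompact K₂) (hK1 : K₁ ⊆ HL) (hK2 : K₂ ⊆ HL) :
    ∀ᶠ n in atTop, ∀ ζ ∈ K₁, mv (a n) ζ ∉ K₂ := by
  set P : ℂ × ℂ → ℂ := fun q => ((q.2.re - q.2.im / q.1.im * q.1.re : ℝ) : ℂ) +
    ((-q.2.im / q.1.im : ℝ) : ℂ) * I with hP
  have hcont : ContinuousOn P (K₁ ×ˢ K₂) := by
    have h3 : ∀ q ∈ K₁ ×ˢ K₂, q.1.im ≠ 0 := fun q hq => (hK1 hq.1 : q.1.im < 0).ne
    have c1 : ContinuousOn (fun q : ℂ × ℂ => q.2.im / q.1.im) (K₁ ×ˢ K₂) :=
      ContinuousOn.div (by fun_prop) (by fun_prop) h3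
    have c2 : ContinuousOn (fun q : ℂ × ℂ => q.2.re - q.2.im / q.1.im * q.1.re) (K₁ ×ˢ K₂) :=
      ContinuousOn.sub (by fun_prop) (c1.mul (by fun_prop))
    have c3 : ContinuousOn (fun q : ℂ × ℂ => -q.2.im / q.1.im) (K₁ ×ˢ K₂) :=
      ContinuousOn.div (by fun_prop) (by fun_prop) h3
    exact (Complex.continuous_ofReal.comp_continuousOn c2).add
      ((Complex.continuous_ofReal.comp_continuousOn c3).mul continuousOn_const)
  have hK : IsCompact (P '' (K₁ ×ˢ K₂)) := (h1.prod h2).image_of_continuousOn hcont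
  have hsub : P '' (K₁ ×ˢ K₂) ⊆ HL := by
    rintro _ ⟨q, hq, rfl⟩
    have i1 : q.1.im < 0 := hK1 hq.1
    have i2 : q.2.im < 0 := hK2 hq.2
    show (P q).im < 0
    simp only [hP, Complex.add_im, Complex.ofReal_im, Complex.mul_im, Complex.ofReal_re,
      Complex.I_im, Complex.I_re]
    have : 0 < q.2.im / q.1.im := div_pos_of_neg_of_neg i2 i1
    rw [neg_div]
    linarith
  filter_upwards [h _ hK hsub] with n hn ζ hζ hz
  apply hn
  refine ⟨(ζ, MP_ae5b4e_an_FVH.mv (a n) ζ), ⟨hζ, hz⟩, ?_⟩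
  have i1 : ζ.im ≠ 0 := (hK1 hζ : ζ.im < 0).ne
  apply Complex.ext
  · simp only [hP, mv_re, mv_im, Complex.add_re, Complex.ofReal_re, Complex.mul_re,
      Complex.ofReal_im, Complex.I_im, Complex.I_re]
    field_simp
    ring
  · simp only [hP, mv_im, Complex.add_im, Complex.ofReal_im, Complex.mul_im, Complex.ofReal_re,
      Complex.I_im, Complex.I_re]
    field_simp
    ring

theorem ball_half_sub : closedBall (-I) (1 / 2) ⊆ HL := by
  intro z hz
  rw [mem_closedBall, dist_eq_norm] at hz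
  have := (Complex.abs_im_le_norm (z - -I)).trans hz
  simp only [Complex.sub_im, Complex.neg_im, Complex.I_im] at this
  rw [abs_le] at this
  show z.im < 0
  linarith [this.2]

/-- the scale of the function goes to zero along an escaping sequence with convergent values -/
theorem Fam.scale (hF : Fam G C N) {g : ℂ → ℂ} (hg : g ∈ G) {a : ℕ → ℂ} (ha : ∀ n, a n ∈ HL)
    (he : Esc a) {x : ℂ} (hx : Tendsto (fun n => g (a n)) atTop (𝓝 x)) :
    Tendsto (fun n => (((-(a n).im : ℝ) : ℂ)) * deriv g (a n)) atTop (𝓝 0) := by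
  obtain ⟨c₀, hc₀, himg⟩ := hF.img
  obtain ⟨T, hT⟩ := (hF.nv g hg).exists_all x
  rw [Metric.tendsto_nhds]
  intro ε hε
  have h1 := he.mv ha (isCompact_closedBall (-I) (1 / 2)) T.finite_toSet.isCompact ball_half_sub
    (fun z hz => ((hT z).mp hz).1)
  have h2 : ∀ᶠ n in atTop, dist (g (a n)) x < c₀ * ε :=
    (Metric.tendsto_nhds.mp hx) _ (by positivity)
  filter_upwards [h1, h2] with n hn1 hn2
  rw [dist_zero_right]
  by_contra hcon
  push Not at hcon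
  set S : ℂ := (((-(a n).im : ℝ) : ℂ)) * deriv g (a n) with hS
  have hS0 : S ≠ 0 := mul_ne_zero (mv_ne (ha n)) (hF.ne g hg _ (ha n))
  obtain ⟨z, hz, hzy⟩ := himg (win g (a n)) (hF.re g hg _ (ha n)) ((x - g (a n)) / S) (by
    rw [norm_div, div_lt_iff₀ (norm_pos_iff.mpr hS0), ← dist_eq_norm, dist_comm]
    exact hn2.trans_le (mul_le_mul_of_nonneg_left hcon hc₀.le))
  unfold win at hzy
  rw [div_left_inj' hS0] at hzy
  have h3 : g (mv (a n) z) = x := by linear_combination hzy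
  have hz' : z ∈ closedBall (-I) (1 / 2) := ball_subset_closedBall hz
  exact hn1 z hz' ((hT _).mpr ⟨mv_mem (ha n) (ball_half_sub hz'), h3⟩)

end Pool.Agent.MP_ae5b4e_an_FVH
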