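import Pool.Agent.Lib.MP_ae5b4e_an_FVH.Fam

/-!
# MP_ae5b4e_an, project FV, function theory, part 4: a member of minimal valence takes every value the
same number of times
-/

noncomputable section

namespace Pool.Agent.MP_ae5b4e_an_FVH

open Complex Set Metric Filter Topology

variable {G : Set (ℂ → ℂ)} {C : ℝ} {N p : ℕ}

/-- local inverse -/
theorem loc_inv {g : ℂ → ℂ} {z : ℂ} (hg : AnalyticAt ℂ g z) (hz : deriv g z ≠ 0) :
    ∃ φ : ℂ → ℂ, (∀ᶠ w in 𝓝 z, φ (g w) = w) ∧ (∀ᶠ x in 𝓝 (g z), g (φ x) = x) ∧ φ (g z) = z ∧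
      DifferentiableAt ℂ φ (g z) := by
  have hs : HasStrictDerivAt g (deriv g z) z := hg.hasStrictDerivAt
  have h1 := hs.eventually_left_inverse hz
  exact ⟨hs.localInverse _ _ _ hz, h1, hs.eventually_right_inverse hz, h1.self_of_nhds,
    (hs.to_localInverse hz).hasDerivAt.differentiableAt⟩

theorem Fam.an (hF : Fam G C N) {g : ℂ → ℂ} (hg : g ∈ G) {z : ℂ} (hz : z ∈ HL) :
    AnalyticAt ℂ g z := (hF.diff g hg).analyticAt (isOpen_HL.mem_nhds hz)

theorem Fam.loc_inj (hF : Fam G C N) {g : ℂ → ℂ} (hg : g ∈ G) {z : ℂ} (hz : z ∈ HL) :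
    ∃ r > 0, InjOn g (ball z r) := by
  obtain ⟨φ, h1, -, -, -⟩ := loc_inv (hF.an hg hz) (hF.ne g hg z hz)
  obtain ⟨r, hr, hb⟩ := Metric.eventually_nhds_iff_ball.mp h1
  refine ⟨r, hr, fun u hu v hv huv => ?_⟩
  rw [← hb u hu, ← hb v hv, huv]

/-- persistence for one function -/
theorem Fam.per1 (hF : Fam G C N) {g : ℂ → ℂ} (hg : g ∈ G) {ι : Type*} {l : Filter ι} {y : ℂ}
    {Y : ι → ℂ} (hY : Tendsto Y l (𝓝 y)) (s : Finset ℂ) (hs : ∀ z ∈ s, z ∈ HL ∧ g z = y) {ε : ℝ}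
    (hε : 0 < ε) : ∀ᶠ n in l, ∃ t : Finset ℂ, t.card = s.card ∧
      ∀ z ∈ t, z ∈ HL ∧ g z = Y n ∧ ∃ z' ∈ s, dist z z' < ε := by
  refine persist (F := fun _ => g) isOpen_HL (Eventually.of_forall fun n => hF.diff g hg) ?_ hY s
    (fun z hz => ⟨(hs z hz).1, (hs z hz).2, not_const (hF.ne g hg z (hs z hz).1)⟩) hε
  intro u hu x hx
  exact ⟨univ, univ_mem, Eventually.of_forall fun n y _ => refl_mem_uniformity hu⟩

/-- the points whose value is taken `p` times -/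
def Ws (g : ℂ → ℂ) (p : ℕ) : Set ℂ :=
  {w | w ∈ HL ∧ ∃ s : Finset ℂ, s.card = p ∧ ∀ z ∈ s, z ∈ HL ∧ g z = g w}

theorem Fam.isOpen_Ws (hF : Fam G C N) {g : ℂ → ℂ} (hg : g ∈ G) : IsOpen (Ws g p) := by
  rw [isOpen_iff_mem_nhds]
  rintro w ⟨hw, s, hsc, hs⟩
  have h1 : Tendsto g (𝓝 w) (𝓝 (g w)) := (hF.an hg hw).continuousAt
  filter_upwards [hF.per1 hg h1 s hs one_pos, isOpen_HL.mem_nhds hw] with w' ⟨t, htc, ht⟩ hw'
  exact ⟨hw', t, htc.trans hsc, fun z hz => ⟨(ht z hz).1, (ht z hz).2.1⟩⟩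

theorem Fam.closed_Ws (hF : Fam G C N) (hmin : ∀ h ∈ G, ∃ (y : ℂ) (s : Finset ℂ), p ≤ s.card ∧
    ∀ z ∈ s, z ∈ HL ∧ h z = y) {g : ℂ → ℂ} (hg : g ∈ G) (hp : NV g HL p) {w : ℂ} (hw : w ∈ HL)
    (hwc : w ∈ closure (Ws g p)) : w ∈ Ws g p := by
  classical
  by_contra hcon
  obtain ⟨u, hu, huw⟩ := mem_closure_iff_seq_limit.mp hwc
  have hu1 : ∀ n, u n ∈ HL := fun n => (hu n).1
  choose s hsc hs using fun n => (hu n).2
  obtain ⟨T, hT⟩ := hp.exists_all (g w)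
  have hTp : T.card < p := by
    rcases (hp (g w) T fun z hz => (hT z).mp hz).lt_or_eq with h | h
    · exact h
    · exact absurd ⟨hw, T, h, fun z hz => (hT z).mp hz⟩ hcon
  -- a common radius of injectivity
  obtain ⟨r, hr, hinj⟩ : ∃ r > 0, ∀ z ∈ T, InjOn g (ball z r) := by
    rcases T.eq_empty_or_nonempty with hTe | hTn
    · exact ⟨1, one_pos, by simp [hTe]⟩
    have h1 : ∀ z ∈ T, ∃ r > 0, InjOn g (ball z r) := fun z hz =>
      hF.loc_inj hg ((hT z).mp hz).1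
    choose! ρ hρ hρi using h1
    exact ⟨T.inf' hTn ρ, (Finset.lt_inf'_iff _).mpr hρ, fun z hz =>
      (hρi z hz).mono (ball_subset_ball (Finset.inf'_le _ hz))⟩
  -- the escaping sheet
  have hesc : ∀ n, ∃ a ∈ s n, ∀ z ∈ T, a ∉ ball z r := by
    intro n
    by_contra hno
    push Not at hno
    choose! f hf1 hf2 using hno
    obtain ⟨x, hx, y, hy, hxy, hfxy⟩ := Finset.exists_ne_map_eq_of_card_lt_of_maps_to
      (s := s n) (t := T) (by rw [hsc n]; exact hTp) (f := f) (fun a ha => hf1 a ha)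
    apply hxy
    have h2 := hf2 y hy
    rw [← hfxy] at h2
    refine hinj (f x) (hf1 x hx) (hf2 x hx) h2 ?_
    rw [(hs n x hx).2, (hs n y hy).2]
  choose a ha1 ha2 using hesc
  have haH : ∀ n, a n ∈ HL := fun n => (hs n _ (ha1 n)).1
  have hga : ∀ n, g (a n) = g (u n) := fun n => (hs n _ (ha1 n)).2
  have hgu : Tendsto (fun n => g (u n)) atTop (𝓝 (g w)) :=
    (hF.an hg hw).continuousAt.tendsto.comp huw
  have hgal : Tendsto (fun n => g (a n)) atTop (𝓝 (g w)) := by simpa only [hga] using hgu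
  have hE : Esc a := by
    intro K hK hKH
    by_contra hfr
    rw [not_eventually] at hfr
    simp only [not_not] at hfr
    obtain ⟨b, hb, φ, hφ, hlim⟩ := hK.tendsto_subseq' hfr
    have h1 : Tendsto (fun n => g (a (φ n))) atTop (𝓝 (g b)) :=
      (hF.an hg (hKH hb)).continuousAt.tendsto.comp hlim
    have h2 : g b = g w := tendsto_nhds_unique h1 (hgal.comp hφ.tendsto_atTop)
    have h3 : b ∈ T := (hT b).mpr ⟨hKH hb, h2⟩
    obtain ⟨n, hn⟩ := ((Metric.tendsto_nhds.mp hlim) r hr).exists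
    exact ha2 (φ n) b h3 hn
  -- windows of the sheet
  obtain ⟨φ, h, hφ, hh, hlim⟩ := hF.compact (f := fun n => win g (a n)) fun n =>
    hF.re g hg _ (haH n)
  obtain ⟨y, S, hSp, hS⟩ := hmin h hh
  -- compact neighbourhood of S
  obtain ⟨η, hη, K, hK, hKH, hKs⟩ : ∃ η > 0, ∃ K : Set ℂ, IsCompact K ∧ K ⊆ HL ∧
      ∀ z, (∃ z' ∈ S, dist z z' < η) → z ∈ K := by
    obtain ⟨η, hη, hsub⟩ := (S.finite_toSet.isCompact).exists_cthickening_subset_open isOpen_HL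
      (fun z hz => (hS z hz).1)
    refine ⟨η, hη, cthickening η (S : Set ℂ), S.finite_toSet.isCompact.cthickening, hsub, ?_⟩
    rintro z ⟨z', hz', hd⟩
    exact mem_cthickening_of_dist_le z z' η _ hz' hd.le
  have e1 := hF.per (fun n => hF.re g hg _ (haH (φ n))) hh hlim
    (y := y) (Y := fun _ => y) tendsto_const_nhds S hS hη
  -- the values
  have hsc0 := (hF.scale hg haH hE hgal).comp hφ.tendsto_atTop
  have hv : Tendsto (fun n => g (a (φ n)) + y * ((((-(a (φ n)).im : ℝ) : ℂ)) *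
      deriv g (a (φ n)))) atTop (𝓝 (g w)) := by
    have h1 := (hgal.comp hφ.tendsto_atTop).add (hsc0.const_mul y)
    rw [mul_zero, add_zero] at h1
    exact h1
  obtain ⟨ρ, hρ, hρH⟩ := (isCompact_singleton (x := w)).exists_cthickening_subset_open isOpen_HL
    (by simpa using hw)
  have hKw : IsCompact (cthickening ρ {w}) := isCompact_singleton.cthickening
  have e2 := hF.per1 hg hv {w} (by
    intro z hz
    rw [Finset.mem_singleton] at hz
    subst hz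
    exact ⟨hw, rfl⟩) hρ
  have e3 := (hE.mv haH hK hKw hKH hρH)
  obtain ⟨n, ⟨t, htc, ht⟩, ⟨t', htc', ht'⟩, h3⟩ :=
    (e1.and (e2.and (hφ.tendsto_atTop.eventually e3))).exists
  rw [Finset.card_singleton] at htc'
  obtain ⟨b, hb⟩ := Finset.card_pos.mp (by rw [htc']; norm_num : 0 < t'.card)
  obtain ⟨hbH, hbv, z', hz', hbd⟩ := ht' b hb
  rw [Finset.mem_singleton] at hz'
  subst hz'
  have hbK : b ∈ cthickening ρ {z'} := mem_cthickening_of_dist_le b z' ρ _ rfl hbd.le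
  have hnot : b ∉ t.image (mv (a (φ n))) := by
    intro hbt
    obtain ⟨ζ, hζ, rfl⟩ := Finset.mem_image.mp hbt
    exact h3 ζ (hKs ζ (ht ζ hζ).2.2) hbK
  have hfin := hp _ (insert b (t.image (mv (a (φ n))))) (by
    intro z hz
    rw [Finset.mem_insert] at hz
    rcases hz with rfl | hz
    · exact ⟨hbH, hbv⟩
    · obtain ⟨ζ, hζ, rfl⟩ := Finset.mem_image.mp hz
      obtain ⟨h4, h5, -⟩ := ht ζ hζ
      refine ⟨mv_mem (haH _) h4, ?_⟩
      have h6 : ((((-(a (φ n)).im : ℝ) : ℂ)) * deriv g (a (φ n))) ≠ 0 :=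
        mul_ne_zero (mv_ne (haH _)) (hF.ne g hg _ (haH _))
      unfold win at h5
      rw [div_eq_iff h6] at h5
      linear_combination h5)
  rw [Finset.card_insert_of_notMem hnot,
    Finset.card_image_of_injective _ (mv_inj (haH _)), htc] at hfin
  omega

/-- every value is taken exactly `p` times -/
theorem Fam.full (hF : Fam G C N) (hp1 : 1 ≤ p) (hmin : ∀ h ∈ G, ∃ (y : ℂ) (s : Finset ℂ),
    p ≤ s.card ∧ ∀ z ∈ s, z ∈ HL ∧ h z = y) {g : ℂ → ℂ} (hg : g ∈ G) (hp : NV g HL p) :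
    ∀ w ∈ HL, ∃ s : Finset ℂ, s.card = p ∧ ∀ z ∈ s, z ∈ HL ∧ g z = g w := by
  have h1 : HL ⊆ Ws g p := by
    refine convex_HL.isPreconnected.subset_of_closure_inter_subset (hF.isOpen_Ws hg) ?_ ?_
    · obtain ⟨y, s, hsc, hs⟩ := hmin g hg
      have hcard : s.card = p := le_antisymm (hp y s hs) hsc
      obtain ⟨w, hw⟩ := Finset.card_pos.mp (by omega : 0 < s.card)
      exact ⟨w, (hs w hw).1, (hs w hw).1, s, hcard, fun z hz => ⟨(hs z hz).1, by
        rw [(hs z hz).2, (hs w hw).2]⟩⟩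
    · rintro w ⟨hwc, hw⟩
      exact hF.closed_Ws hmin hg hp hw hwc
  intro w hw
  exact (h1 hw).2

end Pool.Agent.MP_ae5b4e_an_FVH
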