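import Pool.Agent.Lib.MP_ae5b4e_an_FVH.Core

/-!
# MP_ae5b4e_an, project FV, function theory, part 6: windows of a function near a boundary point
-/

noncomputable section

namespace Pool.Agent.MP_ae5b4e_an_FVH

open Complex Set Metric Filter Topology

/-- exhaustion of the half plane -/
def UR (R : ℝ) : Set ℂ := ball 0 R ∩ HL

theorem isOpen_UR (R : ℝ) : IsOpen (UR R) := isOpen_ball.inter isOpen_HL

theorem convex_UR (R : ℝ) : Convex ℝ (UR R) := (convex_ball 0 R).inter convex_HL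

theorem mem_UR {z : ℂ} (hz : z ∈ HL) : z ∈ UR (‖z‖ + 1) :=
  ⟨by rw [mem_ball_zero_iff]; linarith, hz⟩

theorem UR_sub {R R' : ℝ} (h : R ≤ R') : UR R ⊆ UR R' :=
  inter_subset_inter_left _ (ball_subset_ball h)

/-- a good window -/
structure Good (w : ℂ → ℂ) (C : ℝ) (N : ℕ) (R : ℝ) : Prop where
  diff : DifferentiableOn ℂ w (UR R)
  zero : w (-I) = 0
  one : deriv w (-I) = 1
  ne : ∀ z ∈ UR R, deriv w z ≠ 0
  bd : ∀ z ∈ UR R, ‖pre w z‖ * (-z.im) ≤ C
  nv : NV w (UR R) N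

theorem mv_norm {a z : ℂ} (ha : a ∈ HL) {R : ℝ} (hz : z ∈ UR R) : ‖mv a z‖ ≤ ‖a‖ * (1 + R) := by
  have h1 : ‖z‖ < R := mem_ball_zero_iff.mp hz.1
  have ha' : a.im < 0 := ha
  unfold mv
  calc ‖(a.re : ℂ) + ((-a.im : ℝ) : ℂ) * z‖ ≤ ‖(a.re : ℂ)‖ + ‖((-a.im : ℝ) : ℂ) * z‖ := norm_add_le _ _
    _ ≤ ‖a‖ + ‖a‖ * R := by
        rw [norm_mul, Complex.norm_real, Complex.norm_real]
        refine add_le_add (Complex.abs_re_le_norm a) ?_
        refine mul_le_mul ?_ h1.le (norm_nonneg _) (norm_nonneg _)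
        rw [Real.norm_eq_abs, abs_neg]
        exact Complex.abs_im_le_norm a
    _ = ‖a‖ * (1 + R) := by ring

theorem good_win {f : ℂ → ℂ} {δ C : ℝ} {N : ℕ} (hf : DifferentiableOn ℂ f (UR δ))
    (hne : ∀ z ∈ UR δ, deriv f z ≠ 0) (hN : NV f (UR δ) N)
    (hC : ∀ (f : ℂ → ℂ) (c : ℂ) (r : ℝ),
      DifferentiableOn ℂ f (ball c r) → (∀ z ∈ ball c r, deriv f z ≠ 0) → NV f (ball c r) N →
      ∀ z ∈ ball c r, ‖pre f z‖ * (r - dist z c) ≤ C) {R : ℝ} (hR : 1 < R) {a : ℂ} (ha : a ∈ HL)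
    (haR : ‖a‖ * (1 + R) * 2 < δ) : Good (win f a) C N R := by
  have hmv : ∀ z ∈ UR R, mv a z ∈ UR δ ∧ 2 * ‖mv a z‖ < δ := by
    intro z hz
    have h1 := mv_norm ha hz
    have h2 : 0 ≤ ‖mv a z‖ := norm_nonneg _
    exact ⟨⟨by rw [mem_ball_zero_iff]; linarith, mv_mem ha hz.2⟩, by linarith⟩
  have haU : -I ∈ UR R := ⟨by rw [mem_ball_zero_iff, norm_neg, Complex.norm_I]; exact hR, negI_mem⟩
  have haδ : a ∈ UR δ := by
    have := (hmv _ haU).1
    rwa [mv_negI] at this
  have hfa : deriv f a ≠ 0 := hne a haδ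
  have hfd : ∀ z ∈ UR R, DifferentiableAt ℂ f (mv a z) := fun z hz =>
    (hf _ (hmv z hz).1).differentiableAt ((isOpen_UR δ).mem_nhds (hmv z hz).1)
  have hw1 : ∀ z ∈ UR R, HasDerivAt (win f a) (deriv f (mv a z) / deriv f a) z := fun z hz =>
    win_deriv ha z (hfd z hz)
  have hw2 : ∀ z ∈ UR R, deriv (deriv (win f a)) z =
      ((-a.im : ℝ) : ℂ) * deriv (deriv f) (mv a z) / deriv f a := by
    intro z hz
    have h1 : deriv (win f a) =ᶠ[𝓝 z] fun z => deriv f (mv a z) / deriv f a := by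
      filter_upwards [(isOpen_UR R).mem_nhds hz] with w hw using (hw1 w hw).deriv
    rw [h1.deriv_eq]
    have h2 : HasDerivAt (deriv f) (deriv (deriv f) (mv a z)) (mv a z) :=
      (((hf.deriv (isOpen_UR δ)) _ (hmv z hz).1).differentiableAt
        ((isOpen_UR δ).mem_nhds (hmv z hz).1)).hasDerivAt
    have h3 := ((h2.comp z (mv_hasDerivAt a z)).div_const (deriv f a)).deriv
    have h4 : (deriv f ∘ mv a) = fun z => deriv f (mv a z) := rfl
    rw [h4] at h3
    rw [h3]; ring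
  refine ⟨fun z hz => (hw1 z hz).differentiableAt.differentiableWithinAt, win_negI f a, ?_, ?_, ?_,
    ?_⟩
  · rw [(hw1 _ haU).deriv, mv_negI, div_self hfa]
  · intro z hz
    rw [(hw1 z hz).deriv]
    exact div_ne_zero (hne _ (hmv z hz).1) hfa
  · intro z hz
    set b := mv a z with hb
    have hbH : b ∈ HL := (hmv z hz).1.2
    have hbH' : b.im < 0 := hbH
    have hsub : ball b (-b.im) ⊆ UR δ := by
      intro u hu
      rw [mem_ball_iff_norm] at hu
      have h1 := Complex.abs_im_le_norm b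
      rw [abs_of_neg hbH'] at h1
      constructor
      · rw [mem_ball_zero_iff]
        calc ‖u‖ = ‖b + (u - b)‖ := by rw [add_sub_cancel]
          _ ≤ ‖b‖ + ‖u - b‖ := norm_add_le _ _
          _ < δ := by linarith [(hmv z hz).2]
      · have h2 := (Complex.abs_im_le_norm (u - b)).trans_lt hu
        rw [Complex.sub_im, abs_lt] at h2
        show u.im < 0
        linarith [h2.2]
    have h1 := hC f b (-b.im) (hf.mono hsub) (fun z hz => hne z (hsub hz)) (hN.mono hsub) b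
      (mem_ball_self (by linarith))
    rw [dist_self, sub_zero] at h1
    have h2 : pre (win f a) z = ((-a.im : ℝ) : ℂ) * pre f b := by
      unfold pre
      rw [hw2 z hz, (hw1 z hz).deriv]
      have h3 := hne _ (hmv z hz).1
      rw [← hb] at h3 ⊢
      field_simp
    have ha' : a.im < 0 := ha
    rw [h2, norm_mul, Complex.norm_real, Real.norm_of_nonneg (by linarith)]
    have h3 : b.im = -a.im * z.im := by rw [hb, mv_im]
    rw [h3] at h1
    calc -a.im * ‖pre f b‖ * -z.im = ‖pre f b‖ * -(-a.im * z.im) := by ring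
      _ ≤ C := h1
  · intro x s hs
    have h1 : (s.image (mv a)).card = s.card := Finset.card_image_of_injective _ (mv_inj ha)
    rw [← h1]
    refine hN (f a + x * (((-a.im : ℝ) : ℂ) * deriv f a)) _ ?_
    intro z hz
    obtain ⟨w, hw, rfl⟩ := Finset.mem_image.mp hz
    refine ⟨(hmv w (hs w hw).1).1, ?_⟩
    have h2 := (hs w hw).2
    have h3 : ((-a.im : ℝ) : ℂ) * deriv f a ≠ 0 := mul_ne_zero (mv_ne ha) hfa
    unfold win at h2
    rw [div_eq_iff h3] at h2
    linear_combination h2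

/-- good windows are locally bounded -/
theorem good_bound (C : ℝ) (N : ℕ) {x : ℂ} (hx : x ∈ HL) :
    ∃ R > 1, ∃ r > 0, ball x r ⊆ UR R ∧ ∃ M : ℝ, ∀ w, Good w C N R → ∀ y ∈ ball x r, ‖w y‖ ≤ M := by
  have hx' : x.im < 0 := hx
  set m : ℝ := min 1 (-x.im) / 2 with hm
  have hm0 : 0 < m := by
    have : 0 < min 1 (-x.im) := lt_min one_pos (by linarith)
    linarith
  have hm1 : 2 * m ≤ 1 := by
    have : min 1 (-x.im) ≤ 1 := min_le_left _ _
    linarith
  have hm2 : 2 * m ≤ -x.im := by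
    have : min 1 (-x.im) ≤ -x.im := min_le_right _ _
    linarith
  have hsub : ∀ y ∈ ball x (m / 2), 3 / 2 * m ≤ -y.im ∧ ‖y‖ < ‖x‖ + 1 := by
    intro y hy
    rw [mem_ball_iff_norm] at hy
    constructor
    · have h1 := (Complex.abs_im_le_norm (y - x)).trans_lt hy
      rw [Complex.sub_im, abs_lt] at h1
      linarith [h1.2]
    · calc ‖y‖ = ‖x + (y - x)‖ := by rw [add_sub_cancel]
        _ ≤ ‖x‖ + ‖y - x‖ := norm_add_le _ _
        _ < ‖x‖ + 1 := by linarith
  set R : ℝ := (‖x‖ + 1) ^ 2 / m + 1 + m with hR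
  have hRm : (‖x‖ + 1) ^ 2 < R * m := by
    have : R * m = (‖x‖ + 1) ^ 2 + (1 + m) * m := by
      rw [hR]; field_simp; ring
    rw [this]
    have : 0 < (1 + m) * m := by positivity
    linarith
  have hR1 : 1 + m ≤ R := by
    have : 0 ≤ (‖x‖ + 1) ^ 2 / m := by positivity
    rw [hR]; linarith
  have hRm' : m < R := by linarith
  set B : Set ℂ := ball (-(R:ℂ) * I) (R - m) with hB
  have hBH : B ⊆ UR (2 * R) := by
    intro z hz
    have h1 := big_ball_im hz
    refine ⟨?_, by show z.im < 0; linarith⟩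
    rw [hB, mem_ball_iff_norm] at hz
    rw [mem_ball_zero_iff]
    calc ‖z‖ = ‖(z - -(R:ℂ) * I) + -(R:ℂ) * I‖ := by rw [sub_add_cancel]
      _ ≤ ‖z - -(R:ℂ) * I‖ + ‖-(R:ℂ) * I‖ := norm_add_le _ _
      _ < 2 * R := by
        rw [norm_mul, norm_neg, Complex.norm_I, Complex.norm_real, Real.norm_of_nonneg (by linarith)]
        linarith
  have hI : -I ∈ B := by
    apply big_ball hm0 hRm'
    · simp; linarith
    · rw [norm_neg, Complex.norm_I]
      nlinarith [norm_nonneg x]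
  have hyB : ∀ y ∈ ball x (m / 2), y ∈ B := by
    intro y hy
    obtain ⟨h1, h2⟩ := hsub y hy
    apply big_ball hm0 hRm' h1
    calc ‖y‖ ^ 2 ≤ (‖x‖ + 1) ^ 2 := pow_le_pow_left₀ (norm_nonneg _) h2.le 2
      _ < R * m := hRm
  refine ⟨2 * R, by linarith, m / 2, by positivity, fun y hy => hBH (hyB y hy),
    Real.exp (C / m * (2 * (R - m))) * (2 * (R - m)), fun w hw y hy => ?_⟩
  have h3 := (growth' (f := w) (c := -(R:ℂ) * I) (b := -I) (r := R - m) (M := C / m)
    (by linarith) (hw.diff.mono hBH) (fun z hz => hw.ne z (hBH hz)) (by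
      intro z hz
      have h4 := hw.bd z (hBH hz)
      have h5 := big_ball_im hz
      rw [le_div_iff₀ hm0]
      exact (mul_le_mul_of_nonneg_left h5.le (norm_nonneg _)).trans h4) hI).2 y (hyB y hy)
  rwa [hw.zero, hw.one, sub_zero, norm_one, one_mul] at h3

/-- limits of good windows -/
theorem good_lim {C : ℝ} {N : ℕ} {w : ℕ → ℂ → ℂ} {g : ℂ → ℂ}
    (hw : ∀ R > 1, ∀ᶠ n in atTop, Good (w n) C N R)
    (hlim : TendstoLocallyUniformlyOn w g atTop HL) : ∀ R > 1, Good g C N R := by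
  intro R hR
  have hU := isOpen_UR R
  have h0 : TendstoLocallyUniformlyOn w g atTop (UR R) := hlim.mono inter_subset_right
  have hd0 : ∀ᶠ n in atTop, DifferentiableOn ℂ (w n) (UR R) := (hw R hR).mono fun n hn => hn.diff
  have h1 := h0.deriv hd0 hU
  have hd1 : ∀ᶠ n in atTop, DifferentiableOn ℂ (deriv (w n)) (UR R) :=
    hd0.mono fun n hn => hn.deriv hU
  have h2 := h1.deriv hd1 hU
  have hI : -I ∈ UR R := ⟨by rw [mem_ball_zero_iff, norm_neg, Complex.norm_I]; exact hR, negI_mem⟩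
  have e1 : deriv g (-I) = 1 := by
    have h3 : Tendsto (fun n => deriv (w n) (-I)) atTop (𝓝 (deriv g (-I))) := h1.tendsto_at hI
    have h4 : Tendsto (fun n => deriv (w n) (-I)) atTop (𝓝 1) := by
      refine tendsto_const_nhds.congr' ?_
      filter_upwards [hw R hR] with n hn using hn.one.symm
    exact tendsto_nhds_unique h3 h4
  have hne : ∀ z ∈ UR R, deriv g z ≠ 0 := by
    rcases Pool.Agent.Lib.MP_ae5b4e_an_UT.hurwitz_ne (l := atTop) (F := fun n => deriv (w n))
      (g := deriv g) hU (convex_UR R).isPreconnected hd1 h1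
      ((hw R hR).mono fun n hn => hn.ne) with h | h
    · exact h
    · rw [h _ hI] at e1
      exact absurd e1 zero_ne_one
  refine ⟨h0.differentiableOn hd0 hU, ?_, e1, hne, ?_, ?_⟩
  · have h3 : Tendsto (fun n => w n (-I)) atTop (𝓝 (g (-I))) := h0.tendsto_at hI
    have h4 : Tendsto (fun n => w n (-I)) atTop (𝓝 0) := by
      refine tendsto_const_nhds.congr' ?_
      filter_upwards [hw R hR] with n hn using hn.zero.symm
    exact tendsto_nhds_unique h3 h4
  · intro z hz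
    have h3 : Tendsto (fun n => ‖pre (w n) z‖ * (-z.im)) atTop (𝓝 (‖pre g z‖ * (-z.im))) :=
      (((h2.tendsto_at hz).div (h1.tendsto_at hz) (hne z hz)).norm).mul_const _
    refine le_of_tendsto h3 ?_
    filter_upwards [hw R hR] with n hn using hn.bd z hz
  · intro x s hs
    have h3 := persist hU hd0 h0 (y := x) (Y := fun _ => x) tendsto_const_nhds s
      (fun z hz => ⟨(hs z hz).1, (hs z hz).2, not_const (hne z (hs z hz).1)⟩) one_pos
    obtain ⟨n, hn, t, htc, ht⟩ := ((hw R hR).and h3).exists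
    rw [← htc]
    exact hn.nv x t fun z hz => ⟨(ht z hz).1, (ht z hz).2.1⟩

/-- the window of a window -/
theorem win_win {f : ℂ → ℂ} {a b : ℂ} (ha : a ∈ HL) (hfa : deriv f a ≠ 0)
    (hd : DifferentiableAt ℂ f (mv a b)) (z : ℂ) :
    win f (mv a b) z = win (win f a) b z := by
  have h1 : deriv (win f a) b = deriv f (mv a b) / deriv f a := (win_deriv ha b hd).deriv
  unfold win at h1 ⊢
  rw [h1, ← mv_mv, mv_im]
  have h2 := mv_ne ha
  by_cases h3 : deriv f (mv a b) = 0
  · simp [h3]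
  by_cases h4 : ((-b.im : ℝ) : ℂ) = 0
  · have h5 : b.im = 0 := by
      have : (-b.im : ℝ) = 0 := by exact_mod_cast h4
      linarith
    simp [h5]
  have h6 : ((-(-a.im * b.im) : ℝ) : ℂ) = ((-a.im : ℝ) : ℂ) * ((-b.im : ℝ) : ℂ) := by
    push_cast; ring
  rw [h6]
  field_simp
  ring

end Pool.Agent.MP_ae5b4e_an_FVH
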